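import Pool.Agent.Lib.MP_c03ca8_nt.U.Tl

set_option autoImplicit false

noncomputable section

namespace Pool.Agent.Lib.MP_c03ca8_nt.U

open Finset Polynomial H

/-! The data satisfy all conditions. -/

theorem ok_of_cert (hC : Cert 0.269323 0.269314 2.534862) {n : ℕ} (hn : 670000000 ≤ n) {r : ℝ}
    (hr0 : 0 ≤ r) (hr : r ≤ Real.log n - 13 / 40) :
    ∃ (D : Dt) (z0 z1 y : ℝ), D.OK n r z0 z1 y := by
  obtain ⟨h, h0, h1, hΛ, c0, c1, c2⟩ := hC
  obtain ⟨J, hF⟩ := exists_fine (n := n) (by omega) (ε := 1 / 10 ^ 9) (by norm_num) (by norm_num)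
  have hF' : Fine (pm n J h).n (pm n J h).J (1 / 10 ^ 9) := hF
  have n1 : (670000000 : ℝ) ≤ n := by exact_mod_cast hn
  have w1 := wsv_ge n
  have w2 := wsv_le n
  have w0 : 0 < wsv n := by linarith
  have g0 := G0_nonneg n
  have g1 := G0_le n
  have g2 := log_le_G0 hF.n0
  have hw : (dat (pm n J h)).ws = wsv n := ws_eq hF' Lb_pos
  have hb := wb_le hF' Lb_pos
  have hQ := Q_eq0 h hF
  obtain ⟨hT0, hT⟩ := tl_le h hn hF
  have hLa : La = 87296 := rfl
  have ha : ((2 ^ 27 : ℕ) : ℝ) * (1 / 134234112) = 8192 / 8193 := by norm_num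
  refine ⟨dat (pm n J h), 0.269323, 0.269297, 2.5338, Nat.mul_pos Lb_pos hF.J0, al_zero,
    al_mono hF'.β0 hF.J0, (al_top hF.J0 Lb_pos).le.trans ?_, ?_, gg_nonneg hF'.β0, h0, h1, hΛ, ?_, ?_,
    fun c _ => ?_, fun c _ => ?_, fun c hc => ?_, ?_, ?_, hw ▸ w0, ?_, ?_, ?_, ?_,
    fun t => Real.sqrt_nonneg _, fun t ht => ?_, ?_, fun t ht => ?_, fun t ht => ?_, fun s => ?_,
    ?_, by norm_num, ?_, by norm_num, ?_, ?_⟩
  · change (2 * (Lb : ℝ) - 1) / 16384 ≤ G0 n + 9.43035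
    norm_num [Lb]
    linarith
  · change 0 < G0 n + 9.43035
    linarith
  · change (0 : ℝ) ≤ 1 / 8192
    norm_num
  · change 1 / 8192 * (La : ℝ) + (G0 n - 1.2259 + 1 / 8192) ≤ G0 n + 9.43035 + 1 / 8192
    rw [hLa]
    push_cast
    linarith
  · exact (add_sub_cancel _ _).ge
  · rw [ρ_eq hF']
    exact rr_le hF'.β0 _ (Nat.mod_lt _ hF.J0)
  · have : c / J = 0 := (mem_filter.1 hc).2
    rw [ρ_eq hF']
    change 0 ≤ rr _ J (c / J) _
    rw [this]
    exact rr_zero hF'.β0 _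
  · change (0 : ℝ) < 1 / 16384
    norm_num
  · change (0 : ℝ) ≤ 500
    norm_num
  · change (0 : ℝ) ≤ 8192 / 8193
    norm_num
  · change (0 : ℝ) ≤ 1 / 134234112
    norm_num
  · change 8192 / 8193 + 1 / 134234112 * _ ≤ _
    linarith
  · change La ≤ n + 1
    omega
  · have ht' : t < La := ht
    have := ps_eq (N := 2 ^ 27) (a := 1 / 134234112) (by norm_num) w0 (show t ≤ n by omega)
    rw [ha] at this
    rw [hw]
    exact this
  · change (0 : ℝ) ≤ 0.999662
    norm_num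
  · have ht' : t + 1 < La := ht
    have h2 : (t : ℝ) ≤ (87296 : ℕ) := Nat.cast_le.2 (by omega)
    refine ps_lo (by norm_num) w0 (show t + 1 ≤ n by omega) (by omega) ?_
    change (0.999662 : ℝ) ^ 2 * (((2 ^ 27 : ℕ) : ℝ) * n) ≤ (((2 ^ 27 : ℕ) : ℝ) - t) * wsv n
    have h3 := mul_le_mul_of_nonneg_right h2 w0.le
    push_cast at h3 ⊢
    linarith
  · have ht' : t + 1 < La := ht
    have h2 : (t : ℝ) ≤ (87296 : ℕ) := Nat.cast_le.2 (by omega)
    refine ps_hi (by norm_num) w0 (show t + 1 ≤ n by omega) (by omega) (by norm_num [dat, pm]) ?_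
    change wsv n ≤ (1.0001 : ℝ) ^ 2 * (n - t)
    push_cast at h2
    linarith
  · refine (A_le hF' Lb_pos h1 s).trans (log_Lb.trans ?_)
    change _ ≤ (11.1 : ℝ)
    norm_num
  · simp only [hQ]
    exact c0
  · simp only [hQ]
    refine le_trans ?_ c1
    change _ + (1 : ℝ) ^ 2 * _ ≤ _
    linarith
  · simp only [hQ]
    have h2 : ∑ s ∈ range La, Q0 s * (h s * A0 h s) ≤
        ∑ s ∈ range La, Q0 s * (h s * (dat (pm n J h)).A s) :=
      sum_le_sum fun s _ => mul_le_mul_of_nonneg_left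
        (mul_le_mul_of_nonneg_left (A_ge hF' Lb_pos h0 s) (h0 s)) (Q0_nonneg s)
    have h3 := K_le hF' Lb_pos
    have h5 := mul_le_mul_of_nonneg_right h3 hT0
    change _ + ((0.999662 : ℝ) * 1 * 11.1 + 1 ^ 2 * _ / (1 / 16384)) * _ ≤
      0.999662 * ∑ s ∈ range La, Q0 s * (h s * (dat (pm n J h)).A s)
    linarith
  · have h2 := G_ge hF' Lb_pos
    have h3 : (G0 n + 9.43035) * (G0 n + 9.38565) ≤ ((dat (pm n J h)).G + 2.5338 / 0.269323) ^ 2 := by
      refine le_trans ?_ (pow_le_pow_left₀ (show 0 ≤ G0 n + 9.408 by linarith) ?_ 2)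
      · nlinarith
      · change G0 n ≤ _ at h2
        norm_num
        linarith
    have h4 : wsv n + 1.0001 ^ 2 * (dat (pm n J h)).wb * 1 ^ 2 / 0.269297 ≤ n + 60860 := by
      norm_num
      linarith
    have h5 : r * (n + 60860) < (n + 1) * (G0 n + 9.38565) := by
      have := mul_le_mul_of_nonneg_right (show r ≤ G0 n + 9.379061 by linarith)
        (show (0 : ℝ) ≤ n + 60860 by linarith)
      linarith
    have h6 := mul_lt_mul_of_pos_left h5 (show 0 < G0 n + 9.43035 by linarith)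
    have h7 := mul_le_mul_of_nonneg_left h3 (show (0 : ℝ) ≤ n + 1 by linarith)
    have h8 := mul_le_mul_of_nonneg_left h4
      (mul_nonneg hr0 (show 0 ≤ G0 n + 9.43035 by linarith))
    rw [hw]
    change r * (G0 n + 9.43035) * (wsv n + 1.0001 ^ 2 * _ * 1 ^ 2 / _) < _
    linarith

end Pool.Agent.Lib.MP_c03ca8_nt.U
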