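import Pool.Agent.Lib.MP_c03ca8_nt.U.OldMain

set_option autoImplicit false

/-! The numerical certificate for `k = 57`, ratio `4`. -/

namespace Pool.Agent.Lib.MP_c03ca8_nt.U

open H.Ck (sm)

/-- The parameters. -/
def P1 : Pm where
  q := 1295
  S := 139444
  n := 56
  j := 5
  L := 220000
  k := 45
  e := 10
  t := 12320
  G := 86913693741311343
  C := 0x862ddfc6fa4e1000000000000000000000
  a := 574097550
  b := 3782319999549
  c := 179
  tab := 0x0ea80f2e0fb4103a10c0114611cc125212d8135e13e7147315011591162516ba175317ed1886192019bc1a5a1afa1b9e1c441cee1d9a1e491efc1fb1206a212621e522a7236d2436250225d126a4277b285529322a132af72bdf2ccb2dba2ead2fa3309d319b329d33a234ab35b836c837dd38f53a113b313c543d7c3ea83fd7410b4242437d44bc45ff4746489149e04b324c894de44f4250a4520a537454e2565457c959435ac05c415dc55f4e60da626963fd6594672e68cc6a6d6c126dbb6f66711572c7747c763577f079af7b707d347efb80c5829284618632880689dc8bb58d908f6c914b932c950e96f298d79abe9ca69e8fa07aa265a451a63ea82ba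a19ac06adf4afe2b1d0b3bdb5a9b795b980bb6abd52bf39c11fc302c4e4c6c3c8a0ca79cc50ce24cff4d1c1d38ad54ed70fd8cada81dc32dddedf84e124e2bde450e5dce760e8ddea52ebbeed22ee7befccf112f24ff380f4a7f5c1f6d0f7d2f8c7f9aefa87fb51fc0cfcb7fd52fddbfe52feb6ff08ff45ff6dff7fff78ff5bff25fed4fe69fde0fd38fc70fb87fa79f945f7e7f65df4a4f2b7f092ee2eeb84e88ce539e17bdd3cdae2d85ad598d298d0fdcf4bcd81cb98ca99c98fc87dc75dc6cac633c59ac4fac4a9c459c405c3b2c386c35dc332c308c2efc2d9c2c4c2adc2a3c298c28fc282c27dc279c272c26ec26ac268c266c264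

theorem sums1 : (Nat.beq (sm P1.wn 15 0) 1208925819614578558230031 &&
    Nat.beq (sm P1.w1 15 0) 168583671444402937832101484178 &&
    Nat.beq (sm P1.w2 15 0) 31341017869158358992005482815855516 &&
    Nat.ble (sm P1.gn 15 0) P1.G) = true := by decide +kernel

theorem dots1 : (Nat.ble P1.dot1 34229136414232318995691 &&
    Nat.ble 163343737356182232712481608104 P1.dot2) = true := by decide +kernel

theorem num1 : ∃ D : H.Dat, D.OK 56 4 :=
  ⟨P1.dat, Pm.ok (by decide +kernel) (by norm_num) sums1 dots1 (by norm_num)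
    (by norm_num [Pm.ex, P1]) (by norm_num [P1])⟩

end Pool.Agent.Lib.MP_c03ca8_nt.U
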