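import Pool.Agent.Lib.MP_c03ca8_nt.U.OldMain

set_option autoImplicit false

/-! The numerical certificate for `k = 3585`, ratio `8`. -/

namespace Pool.Agent.Lib.MP_c03ca8_nt.U

open H.Ck (sm)

/-- The parameters. -/
def P2 : Pm where
  q := 1340
  S := 139429
  n := 3584
  j := 11
  L := 114600
  k := 43
  e := 9
  t := 12321
  G := 14702617920118129
  C := 0xbfc4c04c1fa6800000000000000000000
  a := 4703954
  b := 7476679068877
  c := 768
  tab := 0x0f3c13fe18c01b861d7e1f08204e21692266234e242724f425ba267b273827f228aa29622a1a2ad12b8a2c432cfe2dba2e782f372ff930bc3182324a331433e134b035813655372b380438e039be3a9f3b833c6a3d533e3f3f2e401f4114420b4305440245024605470b481449204a2f4b404c554d6d4e884fa550c651ea5311543b5568569857cb59015a3a5b765cb65df85f3d608561d0631e646f65c3671b687469d16b316c946df96f6270cd723b73ab751f7695780e79897b077c887e0b7f91811982a4843085c0875188e58a7a8c128dac8f4890e69286942795ca976f99159abd9c669e119fbda16aa318a4c7a677a828a9d9ab8bad3daef0b0a3b256b40ab5bdb770b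922bad4bc85be36bfe6c194c342c4eec699c842c9e9cb8ecd31ced2d070d20cd3a4d53ad6ccd85ad9e5db6cdcefde6edfe8e15de2cde437e59de6fce855e9a8eaf5ec3aed79eeb0efdff106f225f33bf448f54bf645f735f81af8f5f9c4fa88fb3ffbeafc88fd19fd9bfe10fe76feccff12ff47ff6bff7eff7dff6aff43ff06feb4fe4cfdccfd34fc83fbb6facef9c9f8a4f760f5f9f46ef2bcf0e0eed9eca2ea37e794e4b2e18cde19da4cd617d166cc1cc60cc2a4bee9bac6b61bb382b0afad92aa12a821a606a3b5a11d9fad9e1f9c699a8199739850971295b094ed941c933a924091b89127908b8fe18f868f278ec08e548e1a8dde8da08d5e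

theorem sums2 : (Nat.beq (sm P2.wn 15 0) 1208925819614479219307709 &&
    Nat.beq (sm P2.w1 15 0) 170285026224497290461345029260 &&
    Nat.beq (sm P2.w2 15 0) 31810794414913634863888851896955066 &&
    Nat.ble (sm P2.gn 15 0) P2.G) = true := by decide +kernel

theorem dots2 : (Nat.ble P2.dot1 36202499441401302048619 &&
    Nat.ble 87026276565921785038237672857 P2.dot2) = true := by decide +kernel

theorem num2 : ∃ D : H.Dat, D.OK 3584 8 :=
  ⟨P2.dat, Pm.ok (by decide +kernel) (by norm_num) sums2 dots2 (by norm_num)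
    (by norm_num [Pm.ex, P2]) (by norm_num [P2])⟩

end Pool.Agent.Lib.MP_c03ca8_nt.U
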