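import Pool.Agent.Lib.MP_c03ca8_nt.U.OldMain

set_option autoImplicit false

/-! The numerical certificate for `k = 11534337`, ratio `16`. -/

namespace Pool.Agent.Lib.MP_c03ca8_nt.U

open H.Ck (sm)

/-- The parameters. -/
def P4 : Pm where
  q := 1400
  S := 101657
  n := 11534336
  j := 23
  L := 96000
  k := 38
  e := 9
  t := 12676
  G := 353953769702725
  C := 0x266b3445904348000000000000000000
  a := 738
  b := 19967131160412
  c := 2810
  tab := 0x143814d0156816001698173017c8186018f819901a281ac41b611c021ca51d4b1df41ea01f4f200220b72170222b22ea23ac24702538260326d027a0286f293e2a102ae62bc02c9e2d7f2e652f4e303c312e3225331f341f3522362a37373848395e3a793b983cbd3de63f144047417f42bc43ff4546469247e4493b4a974bf94d604ecc503e51b5533154b3563b57c8595a5af25c8f5e325fdb6189633c64f566b368776a406c0e6de26fbb719a737d7566775479477b3e7d3b7f3d8143834e855d877189898ba58dc58fea9212943d966c989f9ad49d0d9f48a185a3c5a608a84caa91acd8af20b169b3b3b5fdb847ba90bcd8bf20c167c3abc5edc82dca69cca3ced9d10ad336d55ed77fd99adbafddbbdfc0e1bce3afe598e777e94beb12eccdee7af019f1a9f32af499f5f7f742f879f99cfaa9fb9ffc7efd42fdedfe7bfeedff3fff70ff80ff6bff30fecdfe3ffd85fc9afb7efa2bf89df6d3f4c5f26fefc9eccce96fe5a5e15fdc8ad709d0b5c951c51bc072bb3bb544b1eaae3caa23a57aa2dd9ffe9ccb9924971694d3924b8f648dbf8bed89e18782862984a882f280f27fca7e7d7cfd7b317a2178e877717596746a72f370ed6d45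

theorem sums4 : (Nat.beq (sm P4.wn 15 0) 1208925819614572182416885 &&
    Nat.beq (sm P4.w1 15 0) 124840408050710482676932636912 &&
    Nat.beq (sm P4.w2 15 0) 12949706795480625917776000288763664 &&
    Nat.ble (sm P4.gn 15 0) P4.G) = true := by decide +kernel

theorem dots4 : (Nat.ble P4.dot1 38390723508449462881166 &&
    Nat.ble 58621936107814120223131654003 P4.dot2) = true := by decide +kernel

theorem num4 : ∃ D : H.Dat, D.OK 11534336 16 :=
  ⟨P4.dat, Pm.ok (by decide +kernel) (by norm_num) sums4 dots4 (by norm_num)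
    (by norm_num [Pm.ex, P4]) (by norm_num [P4])⟩

end Pool.Agent.Lib.MP_c03ca8_nt.U
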