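import Pool.Agent.Lib.MP_c03ca8_nt.H.AllC

set_option autoImplicit false

noncomputable section

namespace Pool.Agent.Lib.MP_c03ca8_nt.U

open Finset H
open scoped Classical

/-! From the variational problem to primes between fifth powers. -/

theorem of_var {m k : ℕ} (H : Finset ℕ) (hk : k ≤ H.card)
    (hV : ∀ H' : Finset ℕ, H'.card = k → Var {b // b ∈ H'} (4 * m))
    (adm : ∀ p : ℕ, p.Prime → ∃ a : ℕ, ∀ b ∈ H, ¬ p ∣ a + b) :
    ∃ c : ℝ, 0 < c ∧ ∃ N0 : ℕ, ∀ N : ℕ, N0 ≤ N →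
      c * N ≤ Set.ncard {n : ℕ | 1 ≤ n ∧ n ≤ N ∧ ∃ u : ℕ, n ^ 5 < u ∧
        m + 1 ≤ Set.ncard {b : ℕ | b ∈ H ∧ (u + b).Prime ∧ u + b < (n + 1) ^ 5}} := by
  obtain ⟨H', hs, hc'⟩ := Finset.exists_subset_card_eq hk
  have h1 := many (hV H' hc') (fun b => b.1) Subtype.val_injective fun p hp => by
    obtain ⟨a, ha⟩ := adm p hp
    exact ⟨a, fun l => ha l.1 (hs l.2)⟩
  obtain ⟨c, hc0, N0, hN⟩ := fifth Subtype.val_injective h1
  refine ⟨c, hc0, N0, fun N hN0 => (hN N hN0).trans ?_⟩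
  rw [← Set.ncard_coe_finset]
  refine Nat.cast_le.2 (Set.ncard_le_ncard (fun v hv => ?_)
    ((Set.finite_Icc 1 N).subset fun v hv => ⟨hv.1, hv.2.1⟩))
  obtain ⟨hv1, u, hu, hl, h4⟩ := Finset.mem_filter.1 (Finset.mem_coe.1 hv)
  rw [Finset.mem_Icc] at hv1
  refine ⟨hv1.1, hv1.2, u, hu, h4.trans ?_⟩
  rw [← Finset.card_image_of_injective _ Subtype.val_injective, ← Set.ncard_coe_finset]
  refine Set.ncard_le_ncard (fun b hb => ?_) (H.finite_toSet.subset fun b hb => hb.1)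
  obtain ⟨l, h2, rfl⟩ := Finset.mem_image.1 (Finset.mem_coe.1 hb)
  exact ⟨hs l.2, (Finset.mem_filter.1 h2).2, hl l⟩

end Pool.Agent.Lib.MP_c03ca8_nt.U
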