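import Pool.Agent.Lib.MP_c03ca8_nt.U.Var
import Pool.Agent.Lib.MP_c03ca8_nt.U.Ok
import Pool.Agent.Lib.MP_c03ca8_nt.U.Old1
import Pool.Agent.Lib.MP_c03ca8_nt.U.Old2
import Pool.Agent.Lib.MP_c03ca8_nt.U.Old4
import Pool.Agent.Lib.MP_c03ca8_nt.U.Out
import Pool.Agent.Lib.MP_c03ca8_nt.H.Ck

set_option autoImplicit false

noncomputable section

namespace Pool.Agent.Lib.MP_c03ca8_nt.U

open Finset H
open scoped Classical

/-! The variational problem for every `m`. -/

theorem le_exp (m : ℕ) : 2.7182818283 ^ (4 * m) * 1.39557 ≤ Real.exp (4 * m + 1 / 3) := by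
  have h1 := pow_le_pow_left₀ (by norm_num) Real.exp_one_gt_d9.le (4 * m)
  rw [Real.exp_one_pow] at h1
  have h2 := Real.sum_le_exp_of_nonneg (x := 1 / 3) (by norm_num) 5
  simp only [sum_range_succ, sum_range_zero, Nat.factorial] at h2
  push_cast at h1
  rw [Real.exp_add]
  exact mul_le_mul h1 (le_trans (by norm_num) h2) (by norm_num) (Real.exp_pos _).le

theorem var_small {m n K : ℕ} {r : ℝ} (hD : ∃ D : Dat, D.OK n r) (hr : r = 4 * m)
    (hn : (n : ℝ) + 1 ≤ 2.7182818283 ^ (4 * m) * 1.39557) (hK : Real.exp (4 * m + 1 / 3) ≤ K) :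
    ∃ k ≤ K, ∀ H' : Finset ℕ, H'.card = k → Var {b // b ∈ H'} (4 * m) := by
  obtain ⟨D, hD⟩ := hD
  refine ⟨n + 1, by exact_mod_cast (hn.trans (le_exp m)).trans hK, fun H' h => ?_⟩
  exact H.var_of_ok (hr ▸ hD) (by positivity) (by simpa using h)

theorem var_big {m K : ℕ} (hm : 5 ≤ m) (hK : Real.exp (4 * m + 1 / 3) ≤ K) :
    ∃ k ≤ K, ∀ H' : Finset ℕ, H'.card = k → Var {b // b ∈ H'} (4 * m) := by
  have h1 : (2.7182818283 : ℝ) ^ 20 ≤ 2.7182818283 ^ (4 * m) :=
    pow_le_pow_right₀ (by norm_num) (by omega)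
  have h2 : (670000001 : ℝ) ≤ K := by
    refine le_trans ?_ ((le_exp m).trans hK)
    refine le_trans (by norm_num) (mul_le_mul_of_nonneg_right h1 (by norm_num))
  have h3 : 670000001 ≤ K := by exact_mod_cast h2
  obtain ⟨n, rfl⟩ : ∃ n, K = n + 1 := ⟨K - 1, by omega⟩
  push_cast at hK h2
  have h4 : (4 * m : ℝ) ≤ Real.log n - 13 / 40 := by
    rw [le_sub_iff_add_le, Real.le_log_iff_exp_le (by linarith)]
    have h5 := Real.add_one_le_exp (1 / 120 : ℝ)
    have h6 : Real.exp (4 * m + 1 / 3) = Real.exp (4 * m + 13 / 40) * Real.exp (1 / 120) := by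
      rw [← Real.exp_add]
      congr 1
      ring
    have h7 := mul_le_mul_of_nonneg_left h5 (Real.exp_pos (4 * m + 13 / 40 : ℝ)).le
    linarith
  obtain ⟨D, z0, z1, y, hD⟩ := ok_of_cert cert (n := n) (by omega) (by positivity) h4
  exact ⟨n + 1, le_rfl, fun H' h => var_of_ok hD (by positivity) (by simpa using h)⟩

theorem var_all {m K : ℕ} (hm : 1 ≤ m) (hK : Real.exp (4 * m + 1 / 3) ≤ K) :
    ∃ k ≤ K, ∀ H' : Finset ℕ, H'.card = k → Var {b // b ∈ H'} (4 * m) := by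
  rcases (by omega : m = 1 ∨ m = 2 ∨ m = 3 ∨ m = 4 ∨ 5 ≤ m) with rfl | rfl | rfl | rfl | h
  · exact var_small num1 (by norm_num) (by norm_num) hK
  · exact var_small num2 (by norm_num) (by norm_num) hK
  · exact var_small num (by norm_num) (by norm_num) hK
  · exact var_small num4 (by norm_num) (by norm_num) hK
  · exact var_big h hK

end Pool.Agent.Lib.MP_c03ca8_nt.U
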