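import Pool.Agent.Lib.MP_c03ca8_nt.U.Defs

set_option autoImplicit false

noncomputable section

namespace Pool.Agent.Lib.MP_c03ca8_nt.U

/-! The weight of the number of big cells. -/

def ps (n N : ℕ) (a ws : ℝ) (t : ℕ) : ℝ :=
  Real.sqrt (N.choose t * (N * a) ^ (N - t) * a ^ t / (n.choose t * ws ^ (n - t)))

variable {n N t : ℕ} {a ws θ : ℝ}

theorem ps_sq (ha : 0 ≤ a) (hw : 0 < ws) :
    ps n N a ws t ^ 2 = N.choose t * (N * a) ^ (N - t) * a ^ t / (n.choose t * ws ^ (n - t)) :=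
  Real.sq_sqrt (by positivity)

theorem ps_eq (ha : 0 ≤ a) (hw : 0 < ws) (ht : t ≤ n) :
    n.choose t * ws ^ (n - t) * ps n N a ws t ^ 2 = N.choose t * (N * a) ^ (N - t) * a ^ t := by
  have h : (0 : ℝ) < n.choose t := Nat.cast_pos.2 (Nat.choose_pos ht)
  rw [ps_sq ha hw]
  field_simp

theorem ps_ratio (ha : 0 ≤ a) (hw : 0 < ws) (hn : t + 1 ≤ n) (hN : t + 1 ≤ N) :
    ps n N a ws (t + 1) ^ 2 * (N * (n - t)) = ps n N a ws t ^ 2 * ((N - t) * ws) := by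
  have h1 : (0 : ℝ) < n.choose t := Nat.cast_pos.2 (Nat.choose_pos (by omega))
  have h2 : (0 : ℝ) < n.choose (t + 1) := Nat.cast_pos.2 (Nat.choose_pos hn)
  have h3 : (n.choose (t + 1) : ℝ) * (t + 1) = n.choose t * (n - t) := by
    have := congrArg (Nat.cast (R := ℝ)) (Nat.choose_succ_right_eq n t)
    push_cast [Nat.cast_sub (show t ≤ n by omega)] at this
    exact this
  have h4 : (N.choose (t + 1) : ℝ) * (t + 1) = N.choose t * (N - t) := by
    have := congrArg (Nat.cast (R := ℝ)) (Nat.choose_succ_right_eq N t)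
    push_cast [Nat.cast_sub (show t ≤ N by omega)] at this
    exact this
  have h5 : (0 : ℝ) < t + 1 := by positivity
  have h6 : (0 : ℝ) < n - t := by
    have : ((t + 1 : ℕ) : ℝ) ≤ n := Nat.cast_le.2 hn
    push_cast at this
    linarith
  have h7 : (n.choose (t + 1) : ℝ) = n.choose t * (n - t) / (t + 1) := eq_div_of_mul_eq h5.ne' h3
  have h8 : (N.choose (t + 1) : ℝ) = N.choose t * (N - t) / (t + 1) := eq_div_of_mul_eq h5.ne' h4
  rw [ps_sq ha hw, ps_sq ha hw, h7, h8, show N - t = N - (t + 1) + 1 by omega,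
    show n - t = n - (t + 1) + 1 by omega, pow_succ, pow_succ, pow_succ]
  field_simp

theorem ps_lo (ha : 0 ≤ a) (hw : 0 < ws) (hn : t + 1 ≤ n) (hN : t + 1 ≤ N)
    (h : θ ^ 2 * (N * n) ≤ (N - t) * ws) : θ * ps n N a ws t ≤ ps n N a ws (t + 1) := by
  have h1 := ps_ratio ha hw hn hN
  have h2 : ((t + 1 : ℕ) : ℝ) ≤ n := Nat.cast_le.2 hn
  have h3 : ((t + 1 : ℕ) : ℝ) ≤ N := Nat.cast_le.2 hN
  have h4 : (0 : ℝ) ≤ t := Nat.cast_nonneg t
  push_cast at h2 h3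
  have h5 : (0 : ℝ) < N * (n - t) := mul_pos (by linarith) (by linarith)
  refine le_of_sq_le_sq (le_of_mul_le_mul_right ?_ h5) (Real.sqrt_nonneg _)
  have h6 : θ ^ 2 * (N * (n - t)) ≤ (N - t) * ws :=
    (mul_le_mul_of_nonneg_left (mul_le_mul_of_nonneg_left (by linarith) (by linarith))
      (sq_nonneg θ)).trans h
  have h7 := mul_le_mul_of_nonneg_left h6 (sq_nonneg (ps n N a ws t))
  rw [h1, mul_pow]
  linarith

theorem ps_hi (ha : 0 ≤ a) (hw : 0 < ws) (hn : t + 1 ≤ n) (hN : t + 1 ≤ N) (hθ : 0 ≤ θ)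
    (h : ws ≤ θ ^ 2 * (n - t)) : ps n N a ws (t + 1) ≤ θ * ps n N a ws t := by
  have h1 := ps_ratio ha hw hn hN
  have h2 : ((t + 1 : ℕ) : ℝ) ≤ n := Nat.cast_le.2 hn
  have h3 : ((t + 1 : ℕ) : ℝ) ≤ N := Nat.cast_le.2 hN
  have h4 : (0 : ℝ) ≤ t := Nat.cast_nonneg t
  push_cast at h2 h3
  have h5 : (0 : ℝ) < N * (n - t) := mul_pos (by linarith) (by linarith)
  refine le_of_sq_le_sq (le_of_mul_le_mul_right ?_ h5) (mul_nonneg hθ (Real.sqrt_nonneg _))
  have h6 : (N - t) * ws ≤ N * (θ ^ 2 * (n - t)) :=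
    mul_le_mul (by linarith) h hw.le (by linarith)
  have h7 := mul_le_mul_of_nonneg_left h6 (sq_nonneg (ps n N a ws t))
  rw [h1, mul_pow]
  linarith

end Pool.Agent.Lib.MP_c03ca8_nt.U
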