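import Pool.Agent.Lib.MP_c03ca8_nt.U.Geo
import Pool.Agent.Lib.MP_c03ca8_nt.U.Psi

set_option autoImplicit false

noncomputable section

namespace Pool.Agent.Lib.MP_c03ca8_nt.U

open Finset Polynomial H

/-! The data for the lattice of step `2 ^ (-13)`, and the sums over its cells. -/

/-- Total weight of the small cells. -/
def wsv (n : ℕ) : ℝ := n - (1 / 16384 + (n : ℝ)⁻¹)⁻¹

/-- The main term. -/
def G0 (n : ℕ) : ℝ := Real.log (1 + n / 16384)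

/-- The free parameters. -/
structure Pc where
  n : ℕ
  J : ℕ
  L : ℕ
  Λ : ℕ
  h : ℕ → ℝ
  B : ℝ
  D : ℝ
  T : ℝ
  τ : ℝ
  θ1 : ℝ
  θ2 : ℝ
  Am : ℝ

def dat (P : Pc) : Dt where
  M := P.L * P.J
  α := al (P.n : ℝ)⁻¹ P.J
  g := gg (P.n : ℝ)⁻¹ P.J
  lam c := c / P.J
  ρ := rh (P.n : ℝ)⁻¹ P.J
  h := P.h
  ψ := ps P.n (2 ^ 27) (1 / 134234112) (wsv P.n)
  Λ := P.Λ
  N := 2 ^ 27
  a0 := 8192 / 8193
  a1 := 1 / 134234112
  δ := 1 / 8192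
  B := P.B
  D := P.D
  T := P.T
  ρm := 1 / 16384
  τ := P.τ
  θ1 := P.θ1
  θ2 := P.θ2
  hm := 1
  Am := P.Am

/-- The subdivision is fine enough. -/
structure Fine (n J : ℕ) (ε : ℝ) : Prop where
  n0 : 0 < n
  J0 : 0 < J
  e1 : ε ≤ 1
  x : ∀ l, xx (n : ℝ)⁻¹ J l ≤ ε
  x0 : G0 n * xx (n : ℝ)⁻¹ J 0 ≤ ε

theorem lg_zero {n : ℕ} (hn : 0 < n) : Real.log (hi (n : ℝ)⁻¹ 0 / lo (n : ℝ)⁻¹ 0) = G0 n := by
  have : (0 : ℝ) < n := Nat.cast_pos.2 hn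
  unfold G0 hi lo sh
  congr 1
  simp only [if_true, Nat.cast_zero]
  field_simp
  ring

theorem lg_big (β : ℝ) {l : ℕ} (hl : 1 ≤ l) :
    Real.log (hi β l / lo β l) = Real.log ((2 * (l : ℝ) + 1) / (2 * l - 1)) := by
  have h : (1 : ℝ) ≤ l := Nat.one_le_cast.2 hl
  have h1 : (2 * (l : ℝ) - 1) ≠ 0 := by linarith
  unfold hi lo sh
  rw [if_neg (by omega), if_neg (by omega)]
  congr 1
  field_simp
  ring

theorem wt_big (β : ℝ) {l : ℕ} (hl : 1 ≤ l) :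
    (lo β l)⁻¹ - (hi β l)⁻¹ = 32768 / (4 * (l : ℝ) ^ 2 - 1) := by
  have h : (1 : ℝ) ≤ l := Nat.one_le_cast.2 hl
  have h1 : (2 * (l : ℝ) - 1) ≠ 0 := by linarith
  have h2 : (2 * (l : ℝ) + 1) ≠ 0 := by linarith
  unfold hi lo sh
  rw [if_neg (by omega), if_neg (by omega),
    show 4 * (l : ℝ) ^ 2 - 1 = (2 * l - 1) * (2 * l + 1) by ring]
  field_simp
  ring

theorem wt_zero (n : ℕ) : (lo (n : ℝ)⁻¹ 0)⁻¹ - (hi (n : ℝ)⁻¹ 0)⁻¹ = wsv n := by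
  simp [lo, hi, sh, wsv]

theorem G0_nonneg (n : ℕ) : 0 ≤ G0 n :=
  Real.log_nonneg (le_add_of_nonneg_right (by positivity))

theorem exists_fine {n : ℕ} (hn : 0 < n) {ε : ℝ} (h0 : 0 < ε) (h1 : ε ≤ 1) : ∃ J, Fine n J ε := by
  obtain ⟨J, hJ⟩ := exists_nat_ge ((G0 n ^ 2 + G0 n + 2) / ε)
  have hG := G0_nonneg n
  have h2 : G0 n ^ 2 + G0 n + 2 ≤ J * ε := (div_le_iff₀ h0).1 hJ
  have h3 : (0 : ℝ) < J := by
    by_contra hc
    nlinarith [sq_nonneg (G0 n)]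
  refine ⟨J, hn, Nat.cast_pos.1 h3, h1, fun l => ?_, ?_⟩
  · rw [xx, div_le_iff₀ h3]
    rcases Nat.eq_zero_or_pos l with rfl | hl
    · rw [lg_zero hn]
      nlinarith [sq_nonneg (G0 n)]
    · have h : (1 : ℝ) ≤ l := Nat.one_le_cast.2 hl
      have h4 : (2 * (l : ℝ) + 1) / (2 * l - 1) ≤ 3 := by
        rw [div_le_iff₀ (by linarith)]
        linarith
      have h5 := Real.log_le_sub_one_of_pos
        (div_pos (show 0 < 2 * (l : ℝ) + 1 by linarith) (show 0 < 2 * (l : ℝ) - 1 by linarith))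
      rw [lg_big _ hl]
      nlinarith [sq_nonneg (G0 n)]
  · rw [xx, lg_zero hn, ← mul_div_assoc, div_le_iff₀ h3]
    nlinarith

theorem sum_tel {L : ℕ} (hL : 0 < L) :
    ∑ l ∈ Ico 1 L, 2 / (4 * (l : ℝ) ^ 2 - 1) = 1 - 1 / (2 * (L : ℝ) - 1) := by
  induction L, hL using Nat.le_induction with
  | base => norm_num
  | succ L hL ih =>
    have h : (1 : ℝ) ≤ L := Nat.one_le_cast.2 hL
    have h1 : (2 * (L : ℝ) - 1) ≠ 0 := by linarith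
    have h2 : (2 * (L : ℝ) + 1) ≠ 0 := by linarith
    rw [sum_Ico_succ_top hL, ih, show 4 * (L : ℝ) ^ 2 - 1 = (2 * L - 1) * (2 * L + 1) by ring]
    push_cast
    rw [show 2 * ((L : ℝ) + 1) - 1 = 2 * L + 1 by ring]
    field_simp
    ring

theorem sum_tel_le {L : ℕ} (hL : 0 < L) : ∑ l ∈ Ico 1 L, 2 / (4 * (l : ℝ) ^ 2 - 1) ≤ 1 := by
  have h : (1 : ℝ) ≤ L := Nat.one_le_cast.2 hL
  have : 0 ≤ 1 / (2 * (L : ℝ) - 1) := div_nonneg zero_le_one (by linarith)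
  rw [sum_tel hL]
  linarith

theorem sum_lg {L : ℕ} (hL : 0 < L) :
    ∑ l ∈ Ico 1 L, Real.log ((2 * (l : ℝ) + 1) / (2 * l - 1)) = Real.log (2 * L - 1) := by
  induction L, hL using Nat.le_induction with
  | base => norm_num
  | succ L hL ih =>
    have h : (1 : ℝ) ≤ L := Nat.one_le_cast.2 hL
    rw [sum_Ico_succ_top hL, ih, Real.log_div (by linarith) (by linarith)]
    push_cast
    rw [show 2 * ((L : ℝ) + 1) - 1 = 2 * L + 1 by ring]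
    ring

theorem lg_ge {l : ℕ} (hl : 1 ≤ l) : 1 / (l : ℝ) + 1 / (12 * (l : ℝ) ^ 3) + 1 / (80 * (l : ℝ) ^ 5) ≤
    Real.log ((2 * (l : ℝ) + 1) / (2 * l - 1)) := by
  have h : (1 : ℝ) ≤ l := Nat.one_le_cast.2 hl
  have h1 : (2 * (l : ℝ) - 1) ≠ 0 := by linarith
  have h2 := Real.hasSum_log_one_add_inv (a := (2 * (l : ℝ) - 1) / 2) (by linarith)
  rw [show 2 * ((2 * (l : ℝ) - 1) / 2) + 1 = 2 * l by ring,
    show 1 + ((2 * (l : ℝ) - 1) / 2)⁻¹ = (2 * (l : ℝ) + 1) / (2 * l - 1) by field_simp; ring] at h2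
  refine le_trans (le_of_eq ?_) (sum_le_hasSum (range 3) (fun k _ => by positivity) h2)
  simp only [sum_range_succ, sum_range_zero]
  push_cast
  field_simp
  ring

variable {P : Pc} {ε : ℝ}

theorem Fine.β0 (hF : Fine P.n P.J ε) : (0 : ℝ) < (P.n : ℝ)⁻¹ := inv_pos.2 (Nat.cast_pos.2 hF.n0)

theorem Fine.e0 (hF : Fine P.n P.J ε) : 0 ≤ ε := (xx_nonneg hF.β0 0).trans (hF.x 0)

theorem w_eq (hF : Fine P.n P.J ε) (c : ℕ) :
    (dat P).w c = ww (P.n : ℝ)⁻¹ P.J (c / P.J) (c % P.J) := gg_w hF.β0 hF.J0 c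

theorem gl_eq (hF : Fine P.n P.J ε) (c : ℕ) :
    (dat P).g c * len (dat P).α c = ge (P.n : ℝ)⁻¹ P.J (c / P.J) := gg_len hF.β0 hF.J0 c

theorem ρ_eq (hF : Fine P.n P.J ε) (c : ℕ) :
    (dat P).ρ c = rr (P.n : ℝ)⁻¹ P.J (c / P.J) (c % P.J) := rh_eq hF.β0 hF.J0 c

theorem ws_eq (hF : Fine P.n P.J ε) (hL : 0 < P.L) : (dat P).ws = wsv P.n := by
  simp only [Dt.ws, w_eq hF]
  exact (sum_sml hF.J0 hL (ww _ P.J)).trans ((sum_ww hF.β0 hF.J0 0).trans (wt_zero _))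

theorem wb_eq (hF : Fine P.n P.J ε) (hL : 0 < P.L) :
    (dat P).wb = 16384 * ∑ l ∈ Ico 1 P.L, 2 / (4 * (l : ℝ) ^ 2 - 1) := by
  simp only [Dt.wb, w_eq hF]
  refine (sum_big hF.J0 hL (ww _ P.J)).trans ?_
  rw [mul_sum]
  refine sum_congr rfl fun l hl => ?_
  rw [sum_ww hF.β0 hF.J0, wt_big _ (mem_Ico.1 hl).1]
  ring

theorem wb_le (hF : Fine P.n P.J ε) (hL : 0 < P.L) : (dat P).wb ≤ 16384 := by
  have := sum_tel_le hL
  rw [wb_eq hF hL]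
  linarith

theorem W_eq (hF : Fine P.n P.J ε) (hL : 0 < P.L) :
    (dat P).W = ∑ l ∈ Ico 1 P.L, monomial l (32768 / (4 * (l : ℝ) ^ 2 - 1)) := by
  simp only [Dt.W, w_eq hF]
  refine (sum_big hF.J0 hL fun l j => monomial l (ww _ P.J l j)).trans ?_
  refine sum_congr rfl fun l hl => ?_
  rw [← map_sum, sum_ww hF.β0 hF.J0, wt_big _ (mem_Ico.1 hl).1]

theorem G_ge (hF : Fine P.n P.J ε) (hL : 0 < P.L) : G0 P.n ≤ (dat P).G := by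
  simp only [Dt.G, gl_eq hF]
  refine le_trans ?_ (sum_sml hF.J0 hL fun l _ => ge _ P.J l).ge
  rw [sum_const, card_range, nsmul_eq_mul, ← lg_zero hF.n0, ← mul_xx hF.J0]
  exact mul_le_mul_of_nonneg_left (le_ge hF.β0 0) (Nat.cast_nonneg _)

theorem K_le (hF : Fine P.n P.J ε) (hL : 0 < P.L) : (dat P).K ≤ (1 + ε) / 16384 := by
  simp only [Dt.K, gl_eq hF, ρ_eq hF]
  refine (sum_sml hF.J0 hL fun l j => ge _ P.J l * rr _ P.J l j).le.trans ?_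
  have h0 := xx_nonneg (J := P.J) hF.β0 0
  have h1 := hF.x 0
  have h2 := hF.e1
  have h3 := exp_sub_le (x := xx (P.n : ℝ)⁻¹ P.J 0 / 2) (by linarith) (by linarith)
  calc _ ≤ ∑ j ∈ range P.J, Real.exp (xx (P.n : ℝ)⁻¹ P.J 0 / 2) *
        (vv (P.n : ℝ)⁻¹ P.J 0 (j + 1) - vv (P.n : ℝ)⁻¹ P.J 0 j) := by
        refine sum_le_sum fun j _ => ?_
        rw [← ge_vv]
        refine mul_le_mul_of_nonneg_left ?_ (ge_nonneg hF.β0 0)
        simp [rr, sh]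
    _ = Real.exp (xx (P.n : ℝ)⁻¹ P.J 0 / 2) / 16384 := by
        rw [← mul_sum, sum_dv hF.β0 hF.J0]
        simp [hi, lo, sh, div_eq_mul_inv]
    _ ≤ _ := div_le_div_of_nonneg_right (by nlinarith) (by norm_num)

theorem A_eq (hF : Fine P.n P.J ε) (hL : 0 < P.L) (s : ℕ) :
    (dat P).A s = ∑ l ∈ Ico 1 P.L, P.J * ge (P.n : ℝ)⁻¹ P.J l * P.h (s + l) := by
  simp only [Dt.A, gl_eq hF]
  refine (sum_big hF.J0 hL fun l _ => ge _ P.J l * P.h (s + l)).trans ?_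
  refine sum_congr rfl fun l _ => ?_
  rw [sum_const, card_range, nsmul_eq_mul, mul_assoc]

theorem A_ge (hF : Fine P.n P.J ε) (hL : 0 < P.L) (h0 : ∀ s, 0 ≤ P.h s) (s : ℕ) :
    ∑ l ∈ Ico 1 P.L, Real.log ((2 * (l : ℝ) + 1) / (2 * l - 1)) * P.h (s + l) ≤ (dat P).A s := by
  rw [A_eq hF hL]
  refine sum_le_sum fun l hl => mul_le_mul_of_nonneg_right ?_ (h0 _)
  rw [← lg_big (P.n : ℝ)⁻¹ (mem_Ico.1 hl).1, ← mul_xx hF.J0]
  exact mul_le_mul_of_nonneg_left (le_ge hF.β0 l) (Nat.cast_nonneg _)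

theorem A_le (hF : Fine P.n P.J ε) (hL : 0 < P.L) (h1 : ∀ s, P.h s ≤ 1) (s : ℕ) :
    (dat P).A s ≤ Real.log (2 * P.L - 1) * (1 + ε) := by
  rw [A_eq hF hL, ← sum_lg hL, sum_mul]
  refine sum_le_sum fun l hl => ?_
  have h2 : (0 : ℝ) ≤ P.J := Nat.cast_nonneg _
  have h3 := xx_nonneg (J := P.J) hF.β0 l
  have h4 := mul_le_mul_of_nonneg_left (ge_le hF.β0 l ((hF.x l).trans hF.e1)) h2
  have h5 := mul_le_mul_of_nonneg_left (hF.x l) (mul_nonneg h2 h3)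
  refine (mul_le_of_le_one_right (mul_nonneg h2 (ge_nonneg hF.β0 l)) (h1 _)).trans ?_
  rw [← lg_big (P.n : ℝ)⁻¹ (mem_Ico.1 hl).1, ← mul_xx hF.J0]
  linarith

end Pool.Agent.Lib.MP_c03ca8_nt.U
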