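import Pool.Agent.Lib.MP_c03ca8_nt.U.CkProg

/-! The two scalar products. -/

namespace Pool.Agent.Lib.MP_c03ca8_nt.U.Ck

theorem dots : (Nat.ble dot1 20348847658374789040178 && Nat.ble 20348847658374789040178 dot1 &&
    Nat.ble 12552033459409751931794259682 dot2) = true := by decide +kernel

end Pool.Agent.Lib.MP_c03ca8_nt.U.Ck
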