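import Mathlib

set_option autoImplicit false

noncomputable section

namespace Pool.Agent.Lib.MP_c03ca8_nt.U

open Finset Polynomial

/-! The objects of the certificate for the lattice of step `2 ^ (-13)`. -/

/-- Number of lattice points. -/
def La : ℕ := 87296

/-- Number of big blocks plus one. -/
def Lb : ℕ := 32768

/-- The weights of the lattice points. -/
def W0 : ℝ[X] := ∑ l ∈ Ico 1 Lb, monomial l (32768 / (4 * (l : ℝ) ^ 2 - 1))

/-- The law of the lattice sum. -/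
def Q0 (s : ℕ) : ℝ := ((C (8192 / 8193 : ℝ) + C (1 / 134234112 : ℝ) * W0) ^ 2 ^ 27).coeff s

/-- The contribution of the big cells to the marginal. -/
def A0 (h : ℕ → ℝ) (s : ℕ) : ℝ :=
  ∑ l ∈ Ico 1 Lb, Real.log ((2 * (l : ℝ) + 1) / (2 * l - 1)) * h (s + l)

/-- What the kernel checks. -/
def Cert (z0 z1 y : ℝ) : Prop := ∃ h : ℕ → ℝ, (∀ s, 0 ≤ h s) ∧ (∀ s, h s ≤ 1) ∧
  (∀ s, La ≤ s → h s = 0) ∧ ∑ s ∈ range La, Q0 s * h s ^ 2 ≤ z0 ∧
    z1 ≤ ∑ s ∈ range La, Q0 s * h s ^ 2 ∧ y ≤ ∑ s ∈ range La, Q0 s * (h s * A0 h s)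

end Pool.Agent.Lib.MP_c03ca8_nt.U
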