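import Pool.Agent.Lib.MP_c03ca8_nt.H.CkPow
import Pool.Agent.Lib.MP_c03ca8_nt.U.CkDefs
import Pool.Agent.Lib.MP_c03ca8_nt.U.CkA

set_option autoImplicit false

/-! The uniform certificate. -/

namespace Pool.Agent.Lib.MP_c03ca8_nt.U.Ck

open Finset Polynomial Pool.Agent.Lib.MP_6cad4c_al.Br
open Pool.Agent.Lib.MP_c03ca8_nt.H.Ck hiding tab Hr W1 Gp Vn dt dot1 dot2

theorem dig_tri (f : ℕ → ℕ) (j : ℕ) (h : ∑ c ∈ range (2 ^ j), f c < 2 ^ 128) (l : ℕ) :
    dig 128 (tr (fun c => c) f j 0) l = if l < 2 ^ j then f l else 0 := by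
  have h1 := tr_spec (pos := fun c => c) monotone_id f j 0
  simp only [zero_add, mul_zero, pow_zero, mul_one] at h1
  rw [h1, dig_sum (fun c => c) f h, sum_ite_eq']
  simp only [mem_range]

theorem dig_hp {e K e' K' : ℕ} (h : e + K ≤ 128) (h' : e' + K' ≤ 128) (hK : K + K' ≤ 128)
    (N X Y i : ℕ) : dig 128 (hp N K K' (nrm e N K X) (nrm e' N K' Y)) i =
      dig 128 (nrm e N K X) i * dig 128 (nrm e' N K' Y) i := by
  have hS : Par.S ⟨0, 0, 0, N, 1, 128, 0, 0, 0, K, K', 0⟩ = N := Nat.one_mul N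
  have hx : ∀ i, dig 128 X i / 2 ^ e % 2 ^ K < 2 ^ K := fun i => Nat.mod_lt _ (by positivity)
  have hy : ∀ i, dig 128 Y i / 2 ^ e' % 2 ^ K' < 2 ^ K' := fun i => Nat.mod_lt _ (by positivity)
  have h1 := had_spec ⟨0, 0, 0, N, 1, 128, 0, 0, 0, K, K', 0⟩ (by norm_num) hK
    (fun i _ => hx i) (fun i _ => hy i)
  rw [hS] at h1
  rw [dig_nrm h, dig_nrm h', nrm_eq h, nrm_eq h', hp, h1, dig_pk]
  · split_ifs <;> rfl
  · intro i _
    refine (Nat.mul_lt_mul'' (hx i) (hy i)).trans_le ?_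
    rw [← pow_add]
    exact Nat.pow_le_pow_right (by norm_num) hK

theorem floor_le (a : ℕ) {b : ℕ} (hb : 0 < b) :
    ((a / b : ℕ) : ℝ) ≤ a / b ∧ (a : ℝ) / b ≤ (a / b : ℕ) + 1 := by
  refine ⟨Nat.cast_div_le, ?_⟩
  rw [div_le_iff₀ (Nat.cast_pos.2 hb), add_mul, one_mul]
  exact_mod_cast (Nat.lt_div_mul_add hb).le

theorem W0_eq : W0 = ∑ l ∈ Ico 1 Lb, monomial l (32768 / (4 * (l : ℝ) ^ 2 - 1)) := rfl

theorem ex_pp : ∃ p : ℝ[X], (∀ s, Q0 s = (p ^ 2 ^ 27).coeff s) ∧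
    ∃ a b : ℝ, a * 8193 = 8192 ∧ b * 134234112 = 1 ∧ p = C a + C b * W0 :=
  ⟨_, Q0.eq_1, _, _, by norm_num, by norm_num, rfl⟩

/-- The law of the lattice point of one cell. -/
noncomputable def pp : ℝ[X] := ex_pp.choose

theorem Q0_eq (s : ℕ) : Q0 s = (pp ^ 2 ^ 27).coeff s := ex_pp.choose_spec.1 s

theorem pp_eq : pp = C (8192 / 8193 : ℝ) + C (1 / 134234112 : ℝ) * W0 := by
  obtain ⟨a, b, h1, h2, h⟩ := ex_pp.choose_spec.2
  rw [← show a = 8192 / 8193 by linarith, ← show b = 1 / 134234112 by linarith]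
  exact h

theorem coeff_pp (l : ℕ) : pp.coeff l = (if l = 0 then 8192 / 8193 else 0) +
    1 / 134234112 * if 1 ≤ l ∧ l < Lb then 32768 / (4 * (l : ℝ) ^ 2 - 1) else 0 := by
  rw [pp_eq, W0_eq]
  generalize Lb = n
  simp only [coeff_add, coeff_C_mul, coeff_C, finsetSum_coeff, coeff_monomial, sum_ite_eq', mem_Ico]

theorem den_pos {l : ℕ} (h : 1 ≤ l) : 0 < 4 * (l : ℝ) ^ 2 - 1 := by
  have : (1 : ℝ) ≤ l := by exact_mod_cast h
  nlinarith

theorem tele (n : ℕ) :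
    ∑ l ∈ Ico 1 (n + 1), 32768 / (4 * (l : ℝ) ^ 2 - 1) = 16384 - 16384 / (2 * (n : ℝ) + 1) := by
  induction n with
  | zero => simp
  | succ n ih =>
    have h := (den_pos (l := n + 1) (by omega)).ne'
    rw [sum_Ico_succ_top (by omega), ih]
    push_cast at h ⊢
    field_simp
    ring

theorem pr_pp : Pr pp := by
  refine ⟨fun s => ?_, ?_⟩
  · rw [coeff_pp]
    refine add_nonneg (by split_ifs <;> norm_num) (mul_nonneg (by norm_num) ?_)
    split_ifs with h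
    · exact (div_pos (by norm_num) (den_pos h.1)).le
    · exact le_rfl
  · have h : ∀ n, 0 < n → (C (8192 / 8193 : ℝ) + C (1 / 134234112 : ℝ) * ∑ l ∈ Ico 1 n,
        monomial l (32768 / (4 * (l : ℝ) ^ 2 - 1))).eval 1 ≤ 1 := fun n hn => by
      obtain ⟨n, rfl⟩ := Nat.exists_eq_add_one.2 hn
      simp only [eval_add, eval_mul, eval_C, eval_finsetSum, eval_monomial, one_pow, mul_one, tele]
      have : 0 ≤ 16384 / (2 * (n : ℝ) + 1) := by positivity
      linarith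
    rw [pp_eq, W0_eq]
    exact h Lb (by decide)

theorem wv_spec {l : ℕ} (h : l < 2 ^ 15) :
    (wv l : ℝ) ≤ 2 ^ 60 * pp.coeff l ∧ 2 ^ 60 * pp.coeff l ≤ wv l + 1 := by
  rw [coeff_pp]
  rcases Nat.eq_zero_or_pos l with rfl | h0
  · rw [show wv 0 = 2 ^ 73 / 8193 by decide]
    norm_num
  have h1 : 1 ≤ 4 * (l * l) := by nlinarith
  have h2 : wv l = 2 ^ 61 / ((4 * (l * l) - 1) * 8193) := by
    change (1 - l) * _ + Nat.shiftLeft 1 61 / _ = _
    rw [Nat.sub_eq_zero_of_le h0, zero_mul, zero_add, sl_eq, one_mul]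
    rfl
  have h3 := floor_le (2 ^ 61) (b := (4 * (l * l) - 1) * 8193) (Nat.mul_pos (by
    have : 1 * 1 ≤ l * l := Nat.mul_le_mul h0 h0
    omega) (by norm_num))
  have h4 := (den_pos h0).ne'
  rw [if_neg h0.ne', if_pos ⟨h0, h⟩, h2]
  convert h3 using 2 <;>
  · push_cast [h1]
    rw [← sq]
    field_simp
    norm_num

theorem ap_W1 : Ap pp 1 W1 := fun s _ => by
  have h1 : ((∑ c ∈ range (2 ^ 15), wv c : ℕ) : ℝ) < (2 ^ 128 : ℕ) := by
    have h2 := mul_le_mul_of_nonneg_left (pr_pp.sum_le (2 ^ 15))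
      (show (0 : ℝ) ≤ 2 ^ 60 by positivity)
    rw [mul_sum] at h2
    rw [Nat.cast_sum]
    refine ((sum_le_sum fun c hc => (wv_spec (mem_range.1 hc)).1).trans h2).trans_lt ?_
    norm_num
  rw [W1, dig_tri wv 15 (Nat.cast_lt.1 h1)]
  split_ifs with h
  · exact wv_spec h
  · rw [coeff_pp, if_neg (by omega), if_neg fun e => h e.2]
    norm_num

theorem ap_Vn : Ap (pp ^ 2 ^ 27) (2 ^ 28) Vn := fun s hs => by
  have h := pw_spec pr_pp ap_W1 27 134217728 (by norm_num) s hs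
  refine ⟨h.1, h.2.trans ?_⟩
  change (dig 128 Vn s : ℝ) + _ ≤ _
  norm_num

theorem dt_eq {p : ℝ[X]} {e : ℝ} {V : ℕ} (h : Ap p e V) (hp : Pr p) {Y : ℕ}
    (hY : ∀ j, dig 128 Y j ≤ 2 ^ 60) : (dt V Y : ℝ) =
      ∑ s ∈ range La, (dig 128 V s : ℝ) * dig 128 Y (87295 - s) :=
  h.dig_mul hp (fun j _ => by exact_mod_cast hY j) (by decide)

/-- The radial function. -/
noncomputable def hf (s : ℕ) : ℝ := if s < La then (dig 128 Hr (87295 - s) : ℝ) / 2 ^ 8 else 0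

theorem dig_Hr (j : ℕ) : dig 128 Hr j < 2 ^ 8 := dig_nrm_lt (by norm_num) _ _ _

theorem hf_nonneg (s : ℕ) : 0 ≤ hf s := by
  unfold hf
  split_ifs <;> positivity

theorem hf_le (s : ℕ) : hf s ≤ 1 := by
  unfold hf
  split_ifs
  · rw [div_le_one (by positivity)]
    exact_mod_cast (dig_Hr _).le
  · exact zero_le_one

theorem hf_eq {s : ℕ} (h : s < La) : (dig 128 Hr (87295 - s) : ℝ) = 2 ^ 8 * hf s := by
  rw [hf, if_pos h]
  ring

theorem dot1_eq : (dot1 : ℝ) = ∑ s ∈ range La, (dig 128 Vn s : ℝ) * (2 ^ 8 * hf s) ^ 2 := by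
  have h : ∀ j, dig 128 (hd 32768 8 Hr) j = dig 128 Hr j ^ 2 :=
    dig_hd (by norm_num) (by norm_num) _ _
  rw [dot1, dt_eq ap_Vn (pr_pp.pow _) fun j => ?_]
  · exact sum_congr rfl fun s hs => by rw [h, Nat.cast_pow, hf_eq (mem_range.1 hs)]
  · rw [h]
    exact (Nat.pow_le_pow_left (dig_Hr j).le 2).trans (by norm_num)

theorem sum_hf : ∑ s ∈ range La, hf s ^ 2 ≤ 32768 := by
  rw [show La = 54528 + 32768 from rfl, sum_range_add, sum_eq_zero, zero_add]
  · refine (sum_le_card_nsmul _ _ 1 fun s _ => pow_le_one₀ (hf_nonneg _) (hf_le _)).trans ?_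
    simp
  · intro s hs
    have := mem_range.1 hs
    rw [hf, if_pos (this.trans (by decide)), Hr, dig_nrm (by norm_num), if_neg (by omega)]
    norm_num

theorem gv_lt (l : ℕ) : gv l < 2 ^ 41 := Nat.mod_lt _ (by decide)

theorem gv_le {l : ℕ} (h : 1 ≤ l) :
    (gv l : ℝ) ≤ 2 ^ 40 * Real.log ((2 * (l : ℝ) + 1) / (2 * l - 1)) := by
  have h0 : (1 : ℝ) ≤ l := by exact_mod_cast h
  have h5 : (0 : ℝ) < l - 1 / 2 := by linarith
  have h1 := sum_le_hasSum (range 4) (fun k _ => by positivity) (Real.hasSum_log_one_add_inv h5)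
  have h2 : gv l ≤ (6720 * l ^ 6 + 560 * l ^ 4 + 84 * l ^ 2 + 15) * 2 ^ 40 / (6720 * l ^ 7) := by
    rw [← sl_eq]
    exact Nat.mod_le _ _
  have h3 : 2 * (l : ℝ) - 1 ≠ 0 := by linarith
  have h4 : (l : ℝ) - 1 / 2 ≠ 0 := by linarith
  rw [show (2 * (l : ℝ) + 1) / (2 * l - 1) = 1 + ((l : ℝ) - 1 / 2)⁻¹ by field_simp; ring]
  refine ((Nat.cast_le.2 h2).trans Nat.cast_div_le).trans
    (le_trans (le_of_eq ?_) (mul_le_mul_of_nonneg_left h1 (by positivity)))
  rw [show 2 * ((l : ℝ) - 1 / 2) + 1 = 2 * l by ring]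
  simp only [sum_range_succ, sum_range_zero]
  push_cast
  field_simp
  ring

theorem dig_Gp (i : ℕ) : dig 128 Gp i = if i < 2 ^ 15 then gv i else 0 :=
  dig_tri gv 15 ((sum_le_card_nsmul _ _ _ fun c _ => (gv_lt c).le).trans_lt (by simp)) i

theorem dig_Ab {s : ℕ} (hs : s < La) : (dig 128 Ab (87295 - s) : ℝ) ≤ 2 ^ 24 * A0 hf s := by
  have h1 : dig 128 Ab (87295 - s) * 2 ^ 24 ≤ _ := dig_nrm_le (by norm_num) _ _ _
  have hL : La = 87296 := rfl
  rw [dig_mul' Gp Hr (N := La) (fun j hj => ?_) (by omega)] at h1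
  · have h2 : ((∑ i ∈ range (87295 - s + 1), dig 128 Gp i * dig 128 Hr (87295 - s - i) : ℕ) : ℝ) ≤
        2 ^ 48 * A0 hf s := by
      have p : ∀ i ∈ Ico 1 Lb,
          0 ≤ 2 ^ 48 * (Real.log ((2 * (i : ℝ) + 1) / (2 * i - 1)) * hf (s + i)) := fun i hi => by
        have := (Nat.cast_nonneg _).trans (gv_le (mem_Ico.1 hi).1)
        exact mul_nonneg (by positivity) (mul_nonneg (by linarith) (hf_nonneg _))
      rw [Nat.cast_sum, A0, mul_sum]
      refine le_trans ?_ (sum_le_sum_of_subset_of_nonneg (inter_subset_right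
        (s₁ := range (87295 - s + 1))) fun i hi _ => p i hi)
      rw [← sum_ite_mem]
      refine sum_le_sum fun i hi => ?_
      have := mem_range.1 hi
      rw [Nat.cast_mul, Nat.sub_sub, hf_eq (by omega), dig_Gp]
      by_cases h : i ∈ Ico 1 Lb
      · rw [if_pos h, if_pos (show i < 2 ^ 15 from (mem_Ico.1 h).2)]
        have := mul_le_mul_of_nonneg_right (gv_le (mem_Ico.1 h).1) (hf_nonneg (s + i))
        linarith
      · rw [if_neg h]
        split_ifs with h'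
        · obtain rfl : i = 0 := by
            by_contra e
            exact h (mem_Ico.2 ⟨by omega, h'⟩)
          rw [show gv 0 = 0 by decide]
          simp
        · simp
    have h3 := (Nat.cast_le (α := ℝ)).2 h1
    rw [Nat.cast_mul] at h3
    push_cast at h3 h2
    linarith
  · refine (sum_le_card_nsmul _ _ (2 ^ 41 * 2 ^ 8) fun i _ =>
      Nat.mul_le_mul ?_ (dig_Hr _).le).trans_lt ?_
    · rw [dig_Gp]
      split_ifs
      · exact (gv_lt i).le
      · positivity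
    · rw [card_range, smul_eq_mul]
      omega

theorem dot2_le : (dot2 : ℝ) ≤ 2 ^ 92 * ∑ s ∈ range La, Q0 s * (hf s * A0 hf s) := by
  have h : ∀ j, dig 128 (hp 32768 8 28 Hr Ab) j = dig 128 Hr j * dig 128 Ab j :=
    dig_hp (by norm_num) (by norm_num) (by norm_num) _ _ _
  rw [dot2, dt_eq ap_Vn (pr_pp.pow _) fun j => ?_, mul_sum]
  · refine sum_le_sum fun s hs => ?_
    have hs' := mem_range.1 hs
    have h1 := hf_nonneg s
    rw [h, Nat.cast_mul, hf_eq hs']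
    refine (mul_le_mul (ap_Vn s (hs'.trans (by decide))).1
      (mul_le_mul_of_nonneg_left (dig_Ab hs') (by positivity)) (by positivity)
      (mul_nonneg (by positivity) ((pr_pp.pow _).nn s))).trans (le_of_eq ?_)
    rw [Q0_eq]
    ring
  · rw [h]
    exact (Nat.mul_le_mul (dig_Hr j).le
      (dig_nrm_lt (by norm_num) _ _ _ : dig 128 Ab j < 2 ^ 28).le).trans (by norm_num)

end Ck

open Finset Ck in
theorem cert : Cert 0.269323 0.269314 2.534862 := by
  have h := dots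
  simp only [Bool.and_eq_true, Nat.ble_eq] at h
  have d1 : (dot1 : ℝ) ≤ (20348847658374789040178 : ℕ) := Nat.cast_le.2 h.1.1
  have d2 : ((20348847658374789040178 : ℕ) : ℝ) ≤ dot1 := Nat.cast_le.2 h.1.2
  have d3 : ((12552033459409751931794259682 : ℕ) : ℝ) ≤ dot2 := Nat.cast_le.2 h.2
  have a1 : (dot1 : ℝ) ≤ 2 ^ 76 * ∑ s ∈ range La, Q0 s * hf s ^ 2 := by
    rw [dot1_eq, mul_sum]
    refine sum_le_sum fun s hs => (mul_le_mul_of_nonneg_right
      (ap_Vn s ((mem_range.1 hs).trans (by decide))).1 (sq_nonneg _)).trans (le_of_eq ?_)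
    rw [Q0_eq]
    ring
  have a2 : 2 ^ 76 * ∑ s ∈ range La, Q0 s * hf s ^ 2 ≤
      dot1 + 2 ^ 44 * ∑ s ∈ range La, hf s ^ 2 := by
    rw [dot1_eq, mul_sum, mul_sum, ← sum_add_distrib]
    refine sum_le_sum fun s hs => ?_
    have := mul_le_mul_of_nonneg_right (ap_Vn s ((mem_range.1 hs).trans (by decide))).2
      (sq_nonneg (2 ^ 8 * hf s))
    rw [Q0_eq]
    linarith
  have a3 := dot2_le
  have a4 := sum_hf
  push_cast at d1 d2 d3
  exact ⟨hf, hf_nonneg, hf_le, fun s hs => if_neg (not_lt.2 hs), by linarith, by linarith,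
    by linarith⟩

end Pool.Agent.Lib.MP_c03ca8_nt.U
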