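import Pool.Agent.Lib.MP_c03ca8_nt.H.CkProg

set_option autoImplicit false

/-! Programs for the uniform certificate, to be run by the kernel. -/

namespace Pool.Agent.Lib.MP_c03ca8_nt.U.Ck

open Pool.Agent.Lib.MP_6cad4c_al.Br (dig had)
open Pool.Agent.Lib.MP_c03ca8_nt.H.Ck (tr nrm hd pw mu)

/-- The law of the lattice point of one cell in units of `2 ^ (-60)`. -/
def wv (c : ℕ) : ℕ :=
  Nat.add (Nat.mul (Nat.sub 1 c) (Nat.div (Nat.shiftLeft 1 73) 8193))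
    (Nat.div (Nat.shiftLeft 1 61) (Nat.mul (Nat.sub (Nat.mul 4 (Nat.mul c c)) 1) 8193))

/-- Four terms of the series of the logarithm in units of `2 ^ (-40)`. -/
def gv (c : ℕ) : ℕ :=
  Nat.mod (Nat.div (Nat.shiftLeft (Nat.add (Nat.add (Nat.add (Nat.mul 6720 (Nat.pow c 6))
    (Nat.mul 560 (Nat.pow c 4))) (Nat.mul 84 (Nat.pow c 2))) 15) 40) (Nat.mul 6720 (Nat.pow c 7)))
    (Nat.shiftLeft 1 41)

/-- Table of values of `h`. -/
def tab : ℕ := 0x00005dab75ee7bcf800382b884e686c488798a198bad8d3c8ec8905491e0936f95009693982999c29b5d9cfc9e9da041a1e8a392a53ea6eda89eaa52ac08adc0af7ab136b2f3b4b3b674b836b9f9bbbebd83bf49c10fc2d5c49cc662c828c9eecbb2cd76cf38d0f8d2b6d472d62cd7e2d996db46dcf2de9ae03de1dbe374e507e694e81ae999eb11ec81ede8ef46f09bf1e6f327f45cf586f6a4f7b5f8b8f9aefa95fb6dfc35fcedfd93fe27fea9ff17ff71ffb6ffe5fffeffffffe8ffb7ff6cff07fe84fde5fd27fc4afb4cfa2df8eaf782f5f5f43ff260f056ee1febb9e920e653e34fe010dc91d8d0d4c5d06bcbbac6a7c125bb25b48cad3da4f1a04a9b4f95d18fa08c29887284577fb17d127a41771f738a71806f4b6cd269f668506684647b621560ae5f225d595b3059e4586c56aa546352eb51184e8e49ea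

/-- Linear interpolation in the table (no property is needed). -/
def hi (t e : ℕ) : ℕ :=
  Nat.shiftRight (Nat.add
    (Nat.mul (dig 16 tab (Nat.sub (Nat.add (Nat.mul 4 e) (Nat.shiftRight t e)) 4))
      (Nat.sub (Nat.shiftLeft 1 e) (Nat.mod t (Nat.shiftLeft 1 e))))
    (Nat.mul (dig 16 tab (Nat.sub (Nat.add (Nat.mul 4 e) (Nat.shiftRight t e)) 3))
      (Nat.mod t (Nat.shiftLeft 1 e)))) e

def hv (j : ℕ) : ℕ :=
  hi (Nat.add j 4) (Nat.sub (Nat.sub (Nat.log2 (Nat.add j 4)) 2)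
    (Nat.sub (Nat.log2 (Nat.add j 4)) 10))

/-- The values of `h` in reversed order. -/
noncomputable def Hr : ℕ := nrm 8 32768 8 (tr (fun c => c) hv 15 0)

noncomputable def W1 : ℕ := tr (fun c => c) wv 15 0

noncomputable def Gp : ℕ := tr (fun c => c) gv 15 0

noncomputable def Vn : ℕ := pw W1 27 134217728

/-- Scalar product of the digits of `V` with the reversed digits of `Y`. -/
def dt (V Y : ℕ) : ℕ := dig 128 (mu V Y) 87295

/-- Digitwise product. -/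
noncomputable def hp (N K K' X Y : ℕ) : ℕ := had ⟨0, 0, 0, N, 1, 128, 0, 0, 0, K, K', 0⟩ X Y K 0

noncomputable def Ab : ℕ := nrm 24 32768 28 (mu Gp Hr)

noncomputable def dot1 : ℕ := dt Vn (hd 32768 8 Hr)

noncomputable def dot2 : ℕ := dt Vn (hp 32768 8 28 Hr Ab)

end Pool.Agent.Lib.MP_c03ca8_nt.U.Ck
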