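import Pool.Agent.Lib.MP_c03ca8_nt.H.ProbB

set_option autoImplicit false

noncomputable section

namespace Pool.Agent.Lib.MP_c03ca8_nt.U

open Finset Polynomial H

/-! Data of a function `ψ (number of big cells) * φ (∑ ρ) * h (∑ lam) * ∏ g`. The cells with
`lam c = 0` are small, the others are big. The ends `α` are not normalised: the simplex is
`∑ ≤ T`. -/

structure Dt where
  M : ℕ
  α : ℕ → ℝ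
  g : ℕ → ℝ
  lam : ℕ → ℕ
  ρ : ℕ → ℝ
  h : ℕ → ℝ
  ψ : ℕ → ℝ
  Λ : ℕ
  N : ℕ
  a0 : ℝ
  a1 : ℝ
  δ : ℝ
  B : ℝ
  D : ℝ
  T : ℝ
  ρm : ℝ
  τ : ℝ
  θ1 : ℝ
  θ2 : ℝ
  hm : ℝ
  Am : ℝ

namespace Dt

variable (D : Dt)

def sml : Finset ℕ := (range D.M).filter fun c => D.lam c = 0

def big : Finset ℕ := (range D.M).filter fun c => D.lam c ≠ 0

/-- Weight of a cell. -/
def w (c : ℕ) : ℝ := D.g c ^ 2 * len D.α c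

def ws : ℝ := ∑ c ∈ D.sml, D.w c

def wb : ℝ := ∑ c ∈ D.big, D.w c

def G : ℝ := ∑ c ∈ D.sml, D.g c * len D.α c

def K : ℝ := ∑ c ∈ D.sml, D.g c * len D.α c * D.ρ c

def ms : ℝ := ∑ c ∈ D.sml, D.w c * Real.exp (D.τ * D.ρ c)

def mb : ℝ := ∑ c ∈ D.big, D.w c * Real.exp (D.τ * D.ρ c)

/-- The lattice points of the big cells with their weights. -/
def W : ℝ[X] := ∑ c ∈ D.big, monomial (D.lam c) (D.w c)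

/-- The law of the lattice sum. -/
def Q (s : ℕ) : ℝ := ((C D.a0 + C D.a1 * D.W) ^ D.N).coeff s

def A (s : ℕ) : ℝ := ∑ c ∈ D.big, D.g c * len D.α c * D.h (s + D.lam c)

/-- Exponential moment bound for the weight of the tuples with `∑ ρ > B - D - ρm`. -/
def Tl (n : ℕ) : ℝ := Real.exp (-(D.τ * (D.B - D.D - D.ρm))) *
  ((D.ms / D.ws) ^ n * (D.a0 + D.a1 * D.mb) ^ D.N)

structure OK (n : ℕ) (r z0 z1 y : ℝ) : Prop where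
  M_pos : 0 < D.M
  α0 : D.α 0 = 0
  mono : Monotone D.α
  αM : D.α D.M ≤ D.T
  T0 : 0 < D.T
  g0 : ∀ c, 0 ≤ D.g c
  h0 : ∀ s, 0 ≤ D.h s
  hle : ∀ s, D.h s ≤ D.hm
  hΛ : ∀ s, D.Λ ≤ s → D.h s = 0
  δ0 : 0 ≤ D.δ
  lev : D.δ * D.Λ + D.B ≤ D.T + D.δ
  cell : ∀ c < D.M, D.α (c + 1) ≤ D.δ * D.lam c + D.ρ c
  ρle : ∀ c < D.M, D.ρ c ≤ D.ρm
  ρ0 : ∀ c ∈ D.sml, 0 ≤ D.ρ c
  D0 : 0 < D.D
  τ0 : 0 ≤ D.τ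
  ws0 : 0 < D.ws
  a00 : 0 ≤ D.a0
  a10 : 0 ≤ D.a1
  mass : D.a0 + D.a1 * D.wb ≤ 1
  Λn : D.Λ ≤ n + 1
  ψ0 : ∀ t, 0 ≤ D.ψ t
  ψsq : ∀ t < D.Λ, n.choose t * D.ws ^ (n - t) * D.ψ t ^ 2 =
    D.N.choose t * D.a0 ^ (D.N - t) * D.a1 ^ t
  θ10 : 0 ≤ D.θ1
  ψlo : ∀ t, t + 1 < D.Λ → D.θ1 * D.ψ t ≤ D.ψ (t + 1)
  ψhi : ∀ t, t + 1 < D.Λ → D.ψ (t + 1) ≤ D.θ2 * D.ψ t
  Ale : ∀ s, D.A s ≤ D.Am
  z0le : ∑ s ∈ range D.Λ, D.Q s * D.h s ^ 2 ≤ z0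
  z1pos : 0 < z1
  z1le : z1 + D.hm ^ 2 * D.Tl n ≤ ∑ s ∈ range D.Λ, D.Q s * D.h s ^ 2
  y0 : 0 ≤ y
  yle : y + (D.θ1 * D.hm * D.Am + D.hm ^ 2 * D.K / D.D) * D.Tl n ≤
    D.θ1 * ∑ s ∈ range D.Λ, D.Q s * (D.h s * D.A s)
  ineq : r * D.T * (D.ws + D.θ2 ^ 2 * D.wb * D.hm ^ 2 / z1) < (n + 1) * (D.G + y / z0) ^ 2

end Dt

end Pool.Agent.Lib.MP_c03ca8_nt.U
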