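import Pool.Agent.Lib.MP_c03ca8_nt.U.Defs

set_option autoImplicit false

noncomputable section

namespace Pool.Agent.Lib.MP_c03ca8_nt.U

open Finset H

/-! Blocks of cells in geometric progression. -/

def sh (β : ℝ) (l : ℕ) : ℝ := if l = 0 then β else 0

def lo (β : ℝ) (l : ℕ) : ℝ := if l = 0 then β else (2 * l - 1) / 16384

def hi (β : ℝ) (l : ℕ) : ℝ := (2 * l + 1) / 16384 + sh β l

def xx (β : ℝ) (J l : ℕ) : ℝ := Real.log (hi β l / lo β l) / J

def vv (β : ℝ) (J l j : ℕ) : ℝ := lo β l * Real.exp (j * xx β J l)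

def al (β : ℝ) (J c : ℕ) : ℝ := vv β J (c / J) (c % J) - sh β (c / J)

def gg (β : ℝ) (J c : ℕ) : ℝ := (vv β J (c / J) (c % J) * Real.exp (xx β J (c / J) / 2))⁻¹

def rh (β : ℝ) (J c : ℕ) : ℝ := al β J (c + 1) - 1 / 8192 * (c / J : ℕ)

/-- Weight of the cell `j` of the block `l`. -/
def ww (β : ℝ) (J l j : ℕ) : ℝ := (vv β J l j)⁻¹ - (vv β J l (j + 1))⁻¹

/-- The value `g * len` on the block `l`. -/
def ge (β : ℝ) (J l : ℕ) : ℝ := Real.exp (xx β J l / 2) - Real.exp (-(xx β J l / 2))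

/-- The rounding error of the cell `j` of the block `l`. -/
def rr (β : ℝ) (J l j : ℕ) : ℝ := vv β J l (j + 1) - sh β l - 1 / 8192 * l

variable {β : ℝ} {J : ℕ}

theorem lo_pos (hβ : 0 < β) (l : ℕ) : 0 < lo β l := by
  unfold lo
  split_ifs with h
  · exact hβ
  · have : (1 : ℝ) ≤ l := Nat.one_le_cast.2 (Nat.pos_of_ne_zero h)
    linarith

theorem lo_le_hi (l : ℕ) : lo β l ≤ hi β l := by
  unfold lo hi sh
  split_ifs with h
  · subst h
    norm_num
  · linarith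

theorem hi_pos (hβ : 0 < β) (l : ℕ) : 0 < hi β l := (lo_pos hβ l).trans_le (lo_le_hi l)

theorem lg_nonneg (hβ : 0 < β) (l : ℕ) : 0 ≤ Real.log (hi β l / lo β l) :=
  Real.log_nonneg ((one_le_div (lo_pos hβ l)).2 (lo_le_hi l))

theorem xx_nonneg (hβ : 0 < β) (l : ℕ) : 0 ≤ xx β J l :=
  div_nonneg (lg_nonneg hβ l) (Nat.cast_nonneg _)

theorem mul_xx (hJ : 0 < J) (l : ℕ) : J * xx β J l = Real.log (hi β l / lo β l) :=
  mul_div_cancel₀ _ (Nat.cast_pos.2 hJ).ne'

theorem vv_pos (hβ : 0 < β) (l j : ℕ) : 0 < vv β J l j := mul_pos (lo_pos hβ l) (Real.exp_pos _)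

theorem vv_zero (l : ℕ) : vv β J l 0 = lo β l := by simp [vv]

theorem vv_top (hβ : 0 < β) (hJ : 0 < J) (l : ℕ) : vv β J l J = hi β l := by
  rw [vv, mul_xx hJ, Real.exp_log (div_pos (hi_pos hβ l) (lo_pos hβ l)),
    mul_div_cancel₀ _ (lo_pos hβ l).ne']

theorem vv_succ (l j : ℕ) : vv β J l (j + 1) = vv β J l j * Real.exp (xx β J l) := by
  rw [vv, vv, mul_assoc, ← Real.exp_add]
  push_cast
  ring_nf

theorem vv_mono (hβ : 0 < β) (l : ℕ) : Monotone (vv β J l) := fun a b h =>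
  mul_le_mul_of_nonneg_left (Real.exp_le_exp.2
    (mul_le_mul_of_nonneg_right (Nat.cast_le.2 h) (xx_nonneg hβ l))) (lo_pos hβ l).le

theorem al_zero : al β J 0 = 0 := by simp [al, vv_zero, lo, sh]

theorem al_succ (hβ : 0 < β) (hJ : 0 < J) (c : ℕ) :
    al β J (c + 1) = vv β J (c / J) (c % J + 1) - sh β (c / J) := by
  have h1 := Nat.mod_lt c hJ
  have h2 := Nat.div_add_mod c J
  unfold al
  by_cases h : c % J + 1 = J
  · have h3 : c + 1 = J * (c / J + 1) := by rw [mul_add]; omega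
    rw [h, vv_top hβ hJ, h3, Nat.mul_div_cancel_left _ hJ, Nat.mul_mod_right, vv_zero]
    simp only [lo, hi, sh, Nat.succ_ne_zero, if_false]
    push_cast
    ring
  · have h3 : c + 1 = J * (c / J) + (c % J + 1) := by omega
    have h4 : c % J + 1 < J := by omega
    have h5 : (c + 1) / J = c / J := by
      rw [h3, Nat.mul_add_div hJ, Nat.div_eq_of_lt h4, add_zero]
    have h6 : (c + 1) % J = c % J + 1 := by rw [h3, Nat.mul_add_mod, Nat.mod_eq_of_lt h4]
    rw [h5, h6]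

theorem len_al (hβ : 0 < β) (hJ : 0 < J) (c : ℕ) :
    len (al β J) c = vv β J (c / J) (c % J + 1) - vv β J (c / J) (c % J) := by
  rw [len, al_succ hβ hJ, al]
  ring

theorem al_mono (hβ : 0 < β) (hJ : 0 < J) : Monotone (al β J) :=
  monotone_nat_of_le_succ fun c => by
    have h1 := len_al hβ hJ c
    have h2 := vv_mono (J := J) hβ (c / J) (Nat.le_succ (c % J))
    rw [len] at h1
    linarith

theorem al_top (hJ : 0 < J) {L : ℕ} (hL : 0 < L) : al β J (L * J) = (2 * L - 1) / 16384 := by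
  rw [al, Nat.mul_div_cancel _ hJ, Nat.mul_mod_left, vv_zero, lo, sh, if_neg hL.ne', if_neg hL.ne',
    sub_zero]

theorem gg_nonneg (hβ : 0 < β) (c : ℕ) : 0 ≤ gg β J c :=
  inv_nonneg.2 (mul_pos (vv_pos hβ _ _) (Real.exp_pos _)).le

theorem gg_len (hβ : 0 < β) (hJ : 0 < J) (c : ℕ) :
    gg β J c * len (al β J) c = ge β J (c / J) := by
  have h1 := vv_pos (J := J) hβ (c / J) (c % J)
  have h2 : Real.exp (xx β J (c / J)) = Real.exp (xx β J (c / J) / 2) ^ 2 := by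
    rw [← Real.exp_nat_mul]
    congr 1
    push_cast
    ring
  have h3 := Real.exp_pos (xx β J (c / J) / 2)
  rw [len_al hβ hJ, gg, ge, vv_succ, Real.exp_neg, h2]
  field_simp

theorem gg_w (hβ : 0 < β) (hJ : 0 < J) (c : ℕ) :
    gg β J c ^ 2 * len (al β J) c = ww β J (c / J) (c % J) := by
  have h1 := vv_pos (J := J) hβ (c / J) (c % J)
  have h2 : Real.exp (xx β J (c / J)) = Real.exp (xx β J (c / J) / 2) ^ 2 := by
    rw [← Real.exp_nat_mul]
    congr 1
    push_cast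
    ring
  have h3 := Real.exp_pos (xx β J (c / J) / 2)
  rw [len_al hβ hJ, gg, ww, vv_succ, h2]
  field_simp

theorem rh_eq (hβ : 0 < β) (hJ : 0 < J) (c : ℕ) : rh β J c = rr β J (c / J) (c % J) := by
  rw [rh, al_succ hβ hJ, rr]

theorem rr_le (hβ : 0 < β) (l : ℕ) {j : ℕ} (hj : j < J) : rr β J l j ≤ 1 / 16384 := by
  have h1 := vv_mono (J := J) hβ l (show j + 1 ≤ J from hj)
  rw [vv_top hβ (by omega), hi] at h1
  unfold rr
  linarith

theorem rr_ge (hβ : 0 < β) (l j : ℕ) : lo β l - sh β l - 1 / 8192 * l ≤ rr β J l j := by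
  have h1 := vv_mono (J := J) hβ l (Nat.zero_le (j + 1))
  rw [vv_zero] at h1
  unfold rr
  linarith

theorem rr_zero (hβ : 0 < β) (j : ℕ) : 0 ≤ rr β J 0 j := by
  simpa [lo, sh] using rr_ge (J := J) hβ 0 j

theorem rr_abs (hβ : 0 < β) (l : ℕ) {j : ℕ} (hj : j < J) : |rr β J l j| ≤ 1 / 16384 := by
  refine abs_le.2 ⟨le_trans ?_ (rr_ge hβ l j), rr_le hβ l hj⟩
  unfold lo sh
  split_ifs with h
  · subst h
    norm_num
  · linarith

theorem ww_nonneg (hβ : 0 < β) (l j : ℕ) : 0 ≤ ww β J l j :=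
  sub_nonneg.2 (inv_anti₀ (vv_pos hβ l j) (vv_mono hβ l (Nat.le_succ j)))

theorem sum_ww (hβ : 0 < β) (hJ : 0 < J) (l : ℕ) :
    ∑ j ∈ range J, ww β J l j = (lo β l)⁻¹ - (hi β l)⁻¹ := by
  have h := sum_range_sub' (fun j => (vv β J l j)⁻¹) J
  simp only [vv_zero, vv_top hβ hJ] at h
  exact h

theorem sum_dv (hβ : 0 < β) (hJ : 0 < J) (l : ℕ) :
    ∑ j ∈ range J, (vv β J l (j + 1) - vv β J l j) = hi β l - lo β l := by
  rw [sum_range_sub (vv β J l) J, vv_zero, vv_top hβ hJ]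

theorem ww_vv (hβ : 0 < β) (l j : ℕ) :
    ww β J l j * vv β J l (j + 1) = Real.exp (xx β J l) - 1 := by
  have h1 := vv_pos (J := J) hβ l j
  have h3 := Real.exp_pos (xx β J l)
  rw [ww, vv_succ]
  field_simp

theorem ww_vv2 (hβ : 0 < β) (l j : ℕ) : ww β J l j * vv β J l (j + 1) ^ 2 =
    Real.exp (xx β J l) * (vv β J l (j + 1) - vv β J l j) := by
  rw [sq, ← mul_assoc, ww_vv hβ, vv_succ]
  ring

theorem ge_vv (l j : ℕ) : ge β J l * vv β J l (j + 1) =
    Real.exp (xx β J l / 2) * (vv β J l (j + 1) - vv β J l j) := by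
  have h2 : Real.exp (xx β J l) = Real.exp (xx β J l / 2) ^ 2 := by
    rw [← Real.exp_nat_mul]
    congr 1
    push_cast
    ring
  have h3 := Real.exp_pos (xx β J l / 2)
  rw [ge, vv_succ, Real.exp_neg, h2]
  field_simp

theorem le_ge (hβ : 0 < β) (l : ℕ) : xx β J l ≤ ge β J l := by
  have h := Real.self_le_sinh_iff.2 (show 0 ≤ xx β J l / 2 by linarith [xx_nonneg (J := J) hβ l])
  rw [Real.sinh_eq] at h
  unfold ge
  linarith

theorem ge_nonneg (hβ : 0 < β) (l : ℕ) : 0 ≤ ge β J l := (xx_nonneg hβ l).trans (le_ge hβ l)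

theorem exp_sub_le {x : ℝ} (h0 : 0 ≤ x) (h1 : x ≤ 1) : Real.exp x - 1 ≤ x + x ^ 2 := by
  have := (abs_le.1 (Real.abs_exp_sub_one_sub_id_le (x := x) (by rwa [abs_of_nonneg h0]))).2
  linarith

theorem ge_le (hβ : 0 < β) (l : ℕ) (h : xx β J l ≤ 1) :
    ge β J l ≤ xx β J l + xx β J l ^ 2 := by
  have h0 := xx_nonneg (J := J) hβ l
  have h1 := exp_sub_le (x := xx β J l / 2) (by linarith) (by linarith)
  have h2 := Real.add_one_le_exp (-(xx β J l / 2))
  unfold ge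
  nlinarith [sq_nonneg (xx β J l)]

/-- First moment of a block. -/
theorem sum_m1 (hβ : 0 < β) (hJ : 0 < J) (l : ℕ) (h : xx β J l ≤ 1) :
    ∑ j ∈ range J, ww β J l j * rr β J l j ≤ Real.log (hi β l / lo β l) * (1 + xx β J l) -
      (sh β l + 1 / 8192 * l) * ((lo β l)⁻¹ - (hi β l)⁻¹) := by
  have h1 : ∀ j, ww β J l j * rr β J l j =
      (Real.exp (xx β J l) - 1) - (sh β l + 1 / 8192 * l) * ww β J l j := fun j => by
    rw [← ww_vv hβ l j, rr]
    ring
  simp only [h1]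
  rw [sum_sub_distrib, ← mul_sum, sum_ww hβ hJ, sum_const, card_range, nsmul_eq_mul, ← mul_xx hJ]
  have h2 := mul_le_mul_of_nonneg_left (exp_sub_le (xx_nonneg hβ l) h) (Nat.cast_nonneg (α := ℝ) J)
  linarith

section

variable {A : Type} [AddCommMonoid A]

theorem sum_cells (hJ : 0 < J) (L : ℕ) (F : ℕ → ℕ → A) :
    ∑ c ∈ range (L * J), F (c / J) (c % J) = ∑ l ∈ range L, ∑ j ∈ range J, F l j := by
  induction L with
  | zero => simp
  | succ L ih =>
    rw [add_mul, one_mul, sum_range_add, ih, sum_range_succ]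
    congr 1
    refine sum_congr rfl fun j hj => ?_
    have h := mem_range.1 hj
    rw [mul_comm, Nat.mul_add_div hJ, Nat.div_eq_of_lt h, add_zero, Nat.mul_add_mod,
      Nat.mod_eq_of_lt h]

theorem sum_sml (hJ : 0 < J) {L : ℕ} (hL : 0 < L) (F : ℕ → ℕ → A) :
    ∑ c ∈ (range (L * J)).filter (fun c => c / J = 0), F (c / J) (c % J) =
      ∑ j ∈ range J, F 0 j := by
  rw [sum_filter, sum_cells hJ L fun l j => if l = 0 then F l j else 0, sum_comm]
  refine sum_congr rfl fun j _ => ?_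
  rw [sum_ite_eq', if_pos (mem_range.2 hL)]

theorem sum_big (hJ : 0 < J) {L : ℕ} (hL : 0 < L) (F : ℕ → ℕ → A) :
    ∑ c ∈ (range (L * J)).filter (fun c => c / J ≠ 0), F (c / J) (c % J) =
      ∑ l ∈ Ico 1 L, ∑ j ∈ range J, F l j := by
  rw [sum_filter, sum_cells hJ L fun l j => if l ≠ 0 then F l j else 0, range_eq_Ico,
    sum_eq_sum_Ico_succ_bot hL]
  simp only [ne_eq, not_true_eq_false, if_false, sum_const_zero, zero_add]
  refine sum_congr rfl fun l hl => sum_congr (by rw [range_eq_Ico]) fun j _ => ?_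
  have := (mem_Ico.1 hl).1
  rw [if_pos (by omega)]

end

end Pool.Agent.Lib.MP_c03ca8_nt.U
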