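import Pool.Agent.Lib.MP_c03ca8_nt.U.Cells
import Pool.Agent.Lib.MP_c03ca8_nt.H.CkDig

set_option autoImplicit false

noncomputable section

namespace Pool.Agent.Lib.MP_c03ca8_nt.U

open Finset Polynomial H

/-! The exponential moments of the rounding errors. -/

theorem exp_le2 {x : ℝ} (h : |x| ≤ 1 / 32) : Real.exp x ≤ 1 + x + 507 / 1000 * x ^ 2 := by
  have h1 := Real.exp_bound (x := x) (by linarith) (n := 3) (by norm_num)
  have h2 : |x| ^ 3 ≤ 1 / 32 * x ^ 2 := by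
    rw [pow_succ', sq_abs]
    exact mul_le_mul_of_nonneg_right h (sq_nonneg x)
  simp only [sum_range_succ, sum_range_zero, Nat.factorial] at h1
  norm_num at h1
  have h3 := (abs_le.1 h1).2
  nlinarith [sq_nonneg x]

theorem blk_exp {β τ : ℝ} {J : ℕ} (hβ : 0 < β) (h0 : 0 ≤ τ) (h1 : τ ≤ 512) (l : ℕ) :
    ∑ j ∈ range J, ww β J l j * Real.exp (τ * rr β J l j) ≤ ∑ j ∈ range J, ww β J l j +
      τ * ∑ j ∈ range J, ww β J l j * rr β J l j +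
        507 / 1000 * τ ^ 2 * ∑ j ∈ range J, ww β J l j * rr β J l j ^ 2 := by
  rw [mul_sum, mul_sum, ← sum_add_distrib, ← sum_add_distrib]
  refine sum_le_sum fun j hj => ?_
  have h2 : |τ * rr β J l j| ≤ 1 / 32 := by
    rw [abs_mul, abs_of_nonneg h0]
    have := mul_le_mul h1 (rr_abs hβ l (mem_range.1 hj)) (abs_nonneg _) (by norm_num)
    linarith
  refine (mul_le_mul_of_nonneg_left (exp_le2 h2) (ww_nonneg hβ l j)).trans (le_of_eq ?_)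
  ring

theorem blk_m2 {β ε : ℝ} {J l : ℕ} (hβ : 0 < β) (hJ : 0 < J) (hl : 1 ≤ l) (hx : xx β J l ≤ ε)
    (hε : ε ≤ 1) : ∑ j ∈ range J, ww β J l j * rr β J l j ^ 2 ≤
      (2 * ε + 17 / 80 * (2 / (4 * (l : ℝ) ^ 2 - 1))) / 8192 := by
  have h : (1 : ℝ) ≤ l := Nat.one_le_cast.2 hl
  have h0 := xx_nonneg (J := J) hβ l
  have h1 : ∀ j, ww β J l j * rr β J l j ^ 2 =
      Real.exp (xx β J l) * (vv β J l (j + 1) - vv β J l j) -
        2 * l / 8192 * (Real.exp (xx β J l) - 1) + (l / 8192) ^ 2 * ww β J l j := fun j => by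
    rw [← ww_vv2 hβ, ← ww_vv hβ l j, rr, sh, if_neg (by omega)]
    ring
  have h2 : hi β l - lo β l = 1 / 8192 := by
    rw [hi, lo, sh, if_neg (by omega), if_neg (by omega)]
    ring
  have h3 := exp_sub_le h0 (hx.trans hε)
  have h4 : Real.log ((2 * (l : ℝ) + 1) / (2 * l - 1)) ≤ J * (Real.exp (xx β J l) - 1) := by
    rw [← lg_big β hl, ← mul_xx hJ]
    exact mul_le_mul_of_nonneg_left (by linarith [Real.add_one_le_exp (xx β J l)])
      (Nat.cast_nonneg _)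
  have h5 := mul_le_mul_of_nonneg_left ((lg_ge hl).trans h4) (show (0 : ℝ) ≤ 2 * l by linarith)
  have h6 : (0 : ℝ) < 4 * (l : ℝ) ^ 2 - 1 := by nlinarith
  have h7 : 2 * l * (1 / (l : ℝ) + 1 / (12 * (l : ℝ) ^ 3) + 1 / (80 * (l : ℝ) ^ 5)) =
      2 + (20 * (l : ℝ) ^ 2 + 3) / (120 * (l : ℝ) ^ 4) := by
    field_simp
    ring
  have h8 : 23 / 80 * (2 / (4 * (l : ℝ) ^ 2 - 1)) ≤ (20 * (l : ℝ) ^ 2 + 3) / (120 * (l : ℝ) ^ 4) := by
    rw [← mul_div_assoc, div_le_div_iff₀ h6 (by positivity)]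
    have : (0 : ℝ) ≤ ((l : ℝ) ^ 2 - 1) * (11 * (l : ℝ) ^ 2 + 3) :=
      mul_nonneg (by nlinarith) (by positivity)
    linarith
  have h9 : ((l : ℝ) / 8192) ^ 2 * (32768 / (4 * (l : ℝ) ^ 2 - 1)) =
      (1 + 1 / 2 * (2 / (4 * (l : ℝ) ^ 2 - 1))) / 8192 := by
    have h10 := mul_inv_cancel₀ h6.ne'
    simp only [div_eq_mul_inv]
    linear_combination (8192 : ℝ)⁻¹ * h10
  simp only [h1]
  rw [sum_add_distrib, sum_sub_distrib, ← mul_sum, ← mul_sum, ← mul_sum, sum_dv hβ hJ,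
    sum_ww hβ hJ, wt_big β hl, sum_const, card_range, nsmul_eq_mul, h2, h9]
  rw [h7] at h5
  nlinarith

variable {P : Pc} {ε : ℝ}

theorem ms_le (hF : Fine P.n P.J ε) (hL : 0 < P.L) (h0 : 0 ≤ P.τ) (h1 : P.τ ≤ 512) :
    (dat P).ms ≤ wsv P.n + P.τ * (G0 P.n + ε - wsv P.n / P.n) +
      507 / 1000 * P.τ ^ 2 * ((1 + 2 * ε) / 16384) := by
  simp only [Dt.ms, w_eq hF, ρ_eq hF]
  refine (sum_sml hF.J0 hL fun l j => ww _ P.J l j * Real.exp (P.τ * rr _ P.J l j)).le.trans ?_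
  refine (blk_exp hF.β0 h0 h1 0).trans ?_
  have h2 := sum_m1 hF.β0 hF.J0 0 ((hF.x 0).trans hF.e1)
  rw [wt_zero, lg_zero hF.n0] at h2
  have h3 : ∑ j ∈ range P.J, ww (P.n : ℝ)⁻¹ P.J 0 j * rr (P.n : ℝ)⁻¹ P.J 0 j ≤
      G0 P.n + ε - wsv P.n / P.n := by
    have := hF.x0
    simp only [sh, if_true, Nat.cast_zero, mul_zero, add_zero] at h2
    rw [div_eq_inv_mul]
    linarith
  have h4 : ∑ j ∈ range P.J, ww (P.n : ℝ)⁻¹ P.J 0 j * rr (P.n : ℝ)⁻¹ P.J 0 j ^ 2 ≤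
      (1 + 2 * ε) / 16384 := by
    have h5 := xx_nonneg (J := P.J) hF.β0 0
    have h6 := hF.x 0
    have h7 := hF.e1
    have h8 := exp_sub_le h5 (h6.trans h7)
    calc _ ≤ ∑ j ∈ range P.J, Real.exp (xx (P.n : ℝ)⁻¹ P.J 0) *
          (vv (P.n : ℝ)⁻¹ P.J 0 (j + 1) - vv (P.n : ℝ)⁻¹ P.J 0 j) := by
          refine sum_le_sum fun j _ => ?_
          rw [← ww_vv2 hF.β0]
          refine mul_le_mul_of_nonneg_left (pow_le_pow_left₀ (rr_zero hF.β0 j) ?_ 2)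
            (ww_nonneg hF.β0 0 j)
          simp [rr, sh]
      _ = Real.exp (xx (P.n : ℝ)⁻¹ P.J 0) / 16384 := by
          rw [← mul_sum, sum_dv hF.β0 hF.J0]
          simp [hi, lo, sh, div_eq_mul_inv]
      _ ≤ _ := div_le_div_of_nonneg_right (by nlinarith) (by norm_num)
  rw [sum_ww hF.β0 hF.J0, wt_zero]
  exact add_le_add (add_le_add le_rfl (mul_le_mul_of_nonneg_left h3 h0))
    (mul_le_mul_of_nonneg_left h4 (by positivity))

theorem mb_le (hF : Fine P.n P.J ε) (hL : 0 < P.L) (h0 : 0 ≤ P.τ) (h1 : P.τ ≤ 512) :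
    (dat P).mb ≤ 16384 + P.τ * (Real.log (2 * P.L - 1) * (1 + ε) -
      ∑ l ∈ Ico 1 P.L, 4 * (l : ℝ) / (4 * (l : ℝ) ^ 2 - 1)) +
        507 / 1000 * P.τ ^ 2 * ((2 * ε * P.L + 17 / 80) / 8192) := by
  simp only [Dt.mb, w_eq hF, ρ_eq hF]
  refine (sum_big hF.J0 hL fun l j => ww _ P.J l j * Real.exp (P.τ * rr _ P.J l j)).le.trans ?_
  refine (sum_le_sum fun l _ => blk_exp hF.β0 h0 h1 l).trans ?_
  have h2 := sum_tel_le hL
  rw [sum_add_distrib, sum_add_distrib, ← mul_sum, ← mul_sum]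
  refine add_le_add (add_le_add ?_ (mul_le_mul_of_nonneg_left ?_ h0))
    (mul_le_mul_of_nonneg_left ?_ (by positivity))
  · refine le_trans (le_of_eq ?_) (wb_le hF hL)
    simp only [Dt.wb, w_eq hF]
    exact (sum_big hF.J0 hL (ww _ P.J)).symm
  · rw [← sum_lg hL, sum_mul, ← sum_sub_distrib]
    refine sum_le_sum fun l hl => ?_
    have h3 := (mem_Ico.1 hl).1
    have h4 := sum_m1 hF.β0 hF.J0 l ((hF.x l).trans hF.e1)
    have h5 := mul_le_mul_of_nonneg_left (hF.x l) (lg_nonneg hF.β0 l)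
    rw [wt_big _ h3, sh, if_neg (by omega)] at h4
    rw [← lg_big (P.n : ℝ)⁻¹ h3]
    refine h4.trans ?_
    have h6 : (0 + 1 / 8192 * (l : ℝ)) * (32768 / (4 * (l : ℝ) ^ 2 - 1)) =
        4 * (l : ℝ) / (4 * (l : ℝ) ^ 2 - 1) := by ring
    linarith
  · refine (sum_le_sum fun l hl => blk_m2 hF.β0 hF.J0 (mem_Ico.1 hl).1 (hF.x l) hF.e1).trans ?_
    rw [← sum_div, sum_add_distrib, ← mul_sum (a := 17 / 80), sum_const, Nat.card_Ico, nsmul_eq_mul]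
    have h3 : ((P.L - 1 : ℕ) : ℝ) ≤ P.L := Nat.cast_le.2 (Nat.sub_le _ _)
    have h4 := mul_le_mul_of_nonneg_right h3 hF.e0
    linarith

/-- Rounded terms of the sum of `4 l / (4 l ^ 2 - 1)`. -/
def mn (l : ℕ) : ℕ := Nat.div (Nat.mul 4398046511104 l) (Nat.sub (Nat.mul 4 (Nat.mul l l)) 1)

theorem mn_sum : Nat.ble 12491224455141 (Ck.sm mn 15 0) = true := by decide +kernel

theorem harm_aux {L : ℕ} (hL : 0 < L) : ((∑ c ∈ range L, mn (0 + c) : ℕ) : ℝ) ≤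
    1099511627776 * ∑ l ∈ Ico 1 L, 4 * (l : ℝ) / (4 * (l : ℝ) ^ 2 - 1) := by
  rw [range_eq_Ico, sum_eq_sum_Ico_succ_bot hL, mul_sum]
  simp only [zero_add, show mn 0 = 0 from rfl]
  rw [Nat.cast_sum]
  refine sum_le_sum fun l hl => ?_
  have h2 := (mem_Ico.1 hl).1
  refine (Nat.cast_div_le (m := 4398046511104 * l) (n := 4 * (l * l) - 1)).trans (le_of_eq ?_)
  rw [Nat.cast_sub (by nlinarith)]
  push_cast
  ring

theorem harm {L : ℕ} (hL : L = 2 ^ 15) :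
    (113607 / 10000 : ℝ) ≤ ∑ l ∈ Ico 1 L, 4 * (l : ℝ) / (4 * (l : ℝ) ^ 2 - 1) := by
  have h := Nat.cast_le (α := ℝ).2 (Nat.le_of_ble_eq_true mn_sum)
  rw [Ck.sm_spec, ← hL] at h
  have h3 := h.trans (harm_aux (by omega))
  push_cast at h3
  linarith

end Pool.Agent.Lib.MP_c03ca8_nt.U
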