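import Pool.Agent.Lib.MP_c03ca8_nt.H.CkProg

set_option autoImplicit false

/-! The programs of the numerical certificate with free parameters. -/

namespace Pool.Agent.Lib.MP_c03ca8_nt.U

open Pool.Agent.Lib.MP_6cad4c_al.Br (force ones dig)
open H.Ck (tr nrm hd LL ml pw dt mu ramp)

/-- The parameters. -/
structure Pm where
  q : ℕ
  S : ℕ
  n : ℕ
  j : ℕ
  L : ℕ
  k : ℕ
  e : ℕ
  t : ℕ
  G : ℕ
  C : ℕ
  a : ℕ
  b : ℕ
  c : ℕ
  tab : ℕ

namespace Pm

variable (P : Pm)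

/-- Lower end of the cell `c` in units of `2 ^ (-36)`. -/
def aN (c : ℕ) : ℕ :=
  Nat.sub (Nat.shiftLeft (Nat.add P.q (Nat.mod c P.q)) (Nat.div c P.q)) P.q

/-- Length of the cell `c`. -/
def dN (c : ℕ) : ℕ := Nat.shiftLeft 1 (Nat.div c P.q)

/-- Upper end of the cell `c` plus half a lattice step. -/
def yN (c : ℕ) : ℕ := Nat.add (Nat.add (P.aN c) (P.dN c)) P.S

/-- The lattice point of the cell `c`. -/
def lam (c : ℕ) : ℕ := Nat.div (P.yN c) (Nat.mul 2 P.S)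

/-- The rounding error of the cell `c` plus half a lattice step. -/
def rN (c : ℕ) : ℕ := Nat.mod (P.yN c) (Nat.mul 2 P.S)

/-- Twice the midpoint of the cell `c`. -/
def xN (c : ℕ) : ℕ := Nat.add (Nat.mul 2 (P.aN c)) (P.dN c)

/-- The value of the function on the cell `c` (no property is needed). -/
def gam (c : ℕ) : ℕ :=
  Nat.div P.C (Nat.mul (Nat.add P.a (P.xN c))
    (Nat.add (Nat.shiftLeft 1 80) (Nat.mul (P.xN c) (Nat.add P.b (Nat.mul P.c (P.xN c))))))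

def gn (c : ℕ) : ℕ := Nat.mul (P.gam c) (P.dN c)

def wn (c : ℕ) : ℕ := Nat.mul (P.gam c) (P.gn c)

def w1 (c : ℕ) : ℕ := Nat.mul (P.wn c) (P.rN c)

def w2 (c : ℕ) : ℕ := Nat.mul (P.w1 c) (P.rN c)

/-- Nodes of the table. -/
noncomputable def nd (c : ℕ) : ℕ :=
  Bool.rec (Nat.add (Nat.sub (Nat.shiftLeft 4 P.e) 4) (Nat.shiftLeft (Nat.sub c (Nat.mul 4 P.e)) P.e))
    (Nat.sub (Nat.shiftLeft (Nat.add 4 (Nat.mod c 4)) (Nat.div c 4)) 4) (Nat.blt c (Nat.mul 4 P.e))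

/-- Linear interpolation between two nodes. -/
noncomputable def blk (c : ℕ) : ℕ :=
  force (Nat.sub (P.nd (Nat.add c 1)) (P.nd c)) fun l =>
    Nat.mul (Nat.div 1024 l) (Nat.add
      (Nat.mul (dig 16 P.tab c) (Nat.sub (Nat.mul l (ones 128 l)) (ramp l)))
      (Nat.mul (dig 16 P.tab (Nat.add c 1)) (ramp l)))

/-- The values of `h` in reversed order. -/
noncomputable def Hr : ℕ := nrm 18 P.L 8 (tr P.nd P.blk 8 0)

noncomputable def Wp : ℕ := tr P.lam P.wn 15 0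

noncomputable def Gp : ℕ := tr P.lam P.gn 15 0

noncomputable def W1 : ℕ := nrm 20 LL 68 P.Wp

noncomputable def Vn : ℕ := pw P.W1 P.j P.n

noncomputable def Ph : ℕ := mu P.Gp P.Hr

noncomputable def dot1 : ℕ := dt (ml P.Vn P.W1) (hd P.L 8 P.Hr)

noncomputable def dot2 : ℕ := dt P.Vn (hd P.L 19 (nrm P.k P.L 19 P.Ph))

end Pm

end Pool.Agent.Lib.MP_c03ca8_nt.U
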