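import Pool.Agent.Lib.MP_c03ca8_nt.H.CkMain
import Pool.Agent.Lib.MP_c03ca8_nt.U.OldProg

set_option autoImplicit false

/-! The data of the certificate with free parameters. -/

namespace Pool.Agent.Lib.MP_c03ca8_nt.U.Pm

open Finset Polynomial Pool.Agent.Lib.MP_6cad4c_al.Br H
open H.Ck (sm tr nrm hd LL ml pw dt mu Pr Ap)

variable (P : Pm)

/-- The radial function. -/
noncomputable def hf (s : ℕ) : ℝ := if s < LL then (dig 128 P.Hr (LL - 1 - s) : ℝ) else 0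

/-- The data. -/
noncomputable def dat : Dat where
  M := 2 ^ 15
  α c := P.aN c / 2 ^ 36
  g c := P.gam c / 2 ^ 22
  lam := P.lam
  ρ c := (P.rN c - P.S) / 2 ^ 36
  h := P.hf
  Λ := LL
  δ := 2 * P.S / 2 ^ 36
  B := 1 - 246204 * (2 * P.S / 2 ^ 36)
  ρm := P.S / 2 ^ 36
  τ := P.t
  Φm := P.G * 2 ^ 8 / 2 ^ 58

/-- Conditions on the parameters. -/
def Good : Prop := 0 < P.q ∧ 1 < P.S ∧ P.n / 2 ^ P.j = 1 ∧ P.k ≤ 58 ∧ P.aN (2 ^ 15) ≤ 2 ^ 36 ∧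
  40 * (P.t * P.S) ≤ 2 ^ 36 ∧ P.G < 2 ^ 100

instance : Decidable P.Good := by
  unfold Good
  infer_instance

variable {P}

theorem aN_succ (hq : 0 < P.q) (c : ℕ) : P.aN (c + 1) = P.aN c + P.dN c := by
  change Nat.shiftLeft (P.q + (c + 1) % P.q) ((c + 1) / P.q) - P.q =
    Nat.shiftLeft (P.q + c % P.q) (c / P.q) - P.q + Nat.shiftLeft 1 (c / P.q)
  rw [sl_eq, sl_eq, sl_eq]
  have h0 : 1 ≤ 2 ^ (c / P.q) := Nat.one_le_two_pow
  have h1 : P.q ≤ (P.q + c % P.q) * 2 ^ (c / P.q) := by nlinarith [Nat.zero_le (c % P.q)]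
  have h2 := Nat.div_add_mod c P.q
  have h3 := Nat.mod_lt c hq
  by_cases h : c % P.q + 1 = P.q
  · have h4 : c + 1 = P.q * (c / P.q + 1) := by rw [mul_add]; omega
    have h5 : (P.q + c % P.q) * 2 ^ (c / P.q) + 1 * 2 ^ (c / P.q) = P.q * 2 ^ (c / P.q + 1) := by
      rw [← add_mul, add_assoc, h]
      ring
    rw [h4, Nat.mul_mod_right, Nat.mul_div_cancel_left _ hq, add_zero, ← h5]
    omega
  · have h4 : c + 1 = c % P.q + 1 + P.q * (c / P.q) := by omega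
    have h5 : c % P.q + 1 < P.q := by omega
    rw [h4, Nat.add_mul_mod_self_left, Nat.add_mul_div_left _ _ hq, Nat.mod_eq_of_lt h5,
      Nat.div_eq_of_lt h5, zero_add, ← add_assoc, add_mul _ 1]
    omega

theorem aN_mono (hq : 0 < P.q) : Monotone P.aN := monotone_nat_of_le_succ fun c => by
  rw [aN_succ hq]
  exact Nat.le_add_right _ _

theorem aN_zero (P : Pm) : P.aN 0 = 0 := by
  change Nat.shiftLeft (P.q + 0 % P.q) (0 / P.q) - P.q = 0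
  rw [sl_eq]
  simp

theorem yN_eq (hq : 0 < P.q) (c : ℕ) : P.yN c = P.aN (c + 1) + P.S := by
  rw [aN_succ hq]
  rfl

theorem lam_mono (hq : 0 < P.q) : Monotone P.lam := fun a b h => by
  change P.yN a / (2 * P.S) ≤ P.yN b / (2 * P.S)
  rw [yN_eq hq, yN_eq hq]
  exact Nat.div_le_div_right (Nat.add_le_add_right (aN_mono hq (by omega)) _)

theorem lam_rN (hq : 0 < P.q) (c : ℕ) : 2 * P.S * P.lam c + P.rN c = P.aN (c + 1) + P.S := by
  rw [← yN_eq hq]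
  exact Nat.div_add_mod _ _

theorem rN_le (hP : P.Good) (c : ℕ) : (P.rN c : ℝ) ≤ 2 * P.S := by
  have h : P.rN c < 2 * P.S := Nat.mod_lt _ (Nat.mul_pos two_pos (zero_lt_one.trans hP.2.1))
  exact_mod_cast h.le

theorem dig_tr (hP : P.Good) (f : ℕ → ℕ) (h : sm f 15 0 < 2 ^ 128) (l : ℕ) :
    (dig 128 (tr P.lam f 15 0) l : ℝ) =
      ∑ c ∈ range P.dat.M, if P.lam c = l then (f c : ℝ) else 0 := by
  have h1 := Ck.tr_spec (lam_mono hP.1) f 15 0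
  have h2 : P.lam 0 = 0 := by
    change (P.aN 0 + Nat.shiftLeft 1 (0 / P.q) + P.S) / (2 * P.S) = 0
    have := hP.2.1
    rw [aN_zero, sl_eq, Nat.zero_div]
    exact Nat.div_eq_of_lt (by omega)
  rw [Ck.sm_spec] at h
  simp only [zero_add] at h h1
  rw [h2, mul_zero, pow_zero, mul_one] at h1
  rw [h1, Ck.dig_sum P.lam f h, Nat.cast_sum]
  simp only [Nat.cast_ite, Nat.cast_zero]
  rfl

theorem len_eq (hP : P.Good) (c : ℕ) : len P.dat.α c = P.dN c / 2 ^ 36 := by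
  change ((P.aN (c + 1) : ℕ) : ℝ) / 2 ^ 36 - P.aN c / 2 ^ 36 = _
  rw [aN_succ hP.1]
  push_cast
  ring

theorem gl_eq (hP : P.Good) (c : ℕ) : P.dat.g c * len P.dat.α c = P.gn c / 2 ^ 58 := by
  rw [len_eq hP]
  change (P.gam c : ℝ) / 2 ^ 22 * _ = ((P.gam c * P.dN c : ℕ) : ℝ) / _
  push_cast
  ring

theorem w_eq (hP : P.Good) (c : ℕ) : P.dat.w c = P.wn c / 2 ^ 80 := by
  rw [Dat.w, len_eq hP]
  change ((P.gam c : ℝ) / 2 ^ 22) ^ 2 * _ = ((P.gam c * (P.gam c * P.dN c) : ℕ) : ℝ) / _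
  push_cast
  ring

theorem hf_nonneg (P : Pm) (s : ℕ) : 0 ≤ P.hf s := by
  unfold hf
  split_ifs <;> positivity

theorem hf_le (P : Pm) (s : ℕ) : P.hf s ≤ 2 ^ 8 := by
  unfold hf
  split_ifs
  · have h : dig 128 P.Hr (LL - 1 - s) < 2 ^ 8 := Ck.dig_nrm_lt (by norm_num) _ _ _
    exact_mod_cast h.le
  · positivity

theorem hf_zero (P : Pm) (s : ℕ) (h : LL ≤ s) : P.hf s = 0 := if_neg (by omega)

theorem sm_cast (P : Pm) (f : ℕ → ℕ) : (sm f 15 0 : ℝ) = ∑ c ∈ range P.dat.M, (f c : ℝ) :=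
  Ck.sm_cast f

/-- The distribution of the lattice point of one cell. -/
noncomputable def Wr (P : Pm) : ℝ[X] := ∑ c ∈ range P.dat.M, monomial (P.lam c) (P.dat.w c)

theorem w_nonneg (hP : P.Good) (c : ℕ) : 0 ≤ P.dat.w c := by
  rw [w_eq hP]
  exact div_nonneg (Nat.cast_nonneg _) (by positivity)

theorem coeff_Wr (hP : P.Good) (l : ℕ) :
    P.Wr.coeff l = (∑ c ∈ range P.dat.M, if P.lam c = l then (P.wn c : ℝ) else 0) / 2 ^ 80 := by
  rw [Wr, finsetSum_coeff, sum_div]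
  refine sum_congr rfl fun c _ => ?_
  rw [coeff_monomial, w_eq hP]
  split_ifs <;> simp

theorem pr_Wr (hP : P.Good) (h : sm P.wn 15 0 ≤ 2 ^ 80) : Pr P.Wr := by
  refine ⟨fun s => ?_, ?_⟩
  · rw [coeff_Wr hP]
    refine div_nonneg (sum_nonneg fun c _ => ?_) (by positivity)
    split_ifs <;> positivity
  · have h1 : (sm P.wn 15 0 : ℝ) ≤ (2 ^ 80 : ℕ) := Nat.cast_le.2 h
    rw [sm_cast P] at h1
    rw [Wr, eval_finsetSum]
    simp only [eval_monomial, one_pow, mul_one, w_eq hP]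
    rw [← sum_div, div_le_one (by positivity)]
    exact_mod_cast h1

theorem ap_W1 (hP : P.Good) (h : sm P.wn 15 0 ≤ 2 ^ 80) : Ap P.Wr 1 P.W1 := by
  have h1 := Ck.ap_nrm (pr_Wr hP h) (k := 20) (e := 0) (V := P.Wp) (by norm_num) fun s _ => by
    rw [Wp, dig_tr hP P.wn (h.trans_lt (by norm_num)), coeff_Wr hP]
    constructor <;> apply le_of_eq <;> ring
  rwa [zero_add] at h1

theorem ap_Vn (hP : P.Good) (h : sm P.wn 15 0 ≤ 2 ^ 80) : Ap (P.Wr ^ P.n) (2 * P.n - 1) P.Vn :=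
  Ck.pw_spec (pr_Wr hP h) (ap_W1 hP h) P.j P.n hP.2.2.1

theorem dot_eq {p : ℝ[X]} {e : ℝ} {V : ℕ} (h : Ap p e V) (hp : Pr p) {k K : ℕ} (h1 : k + K ≤ 128)
    (h2 : K + K ≤ 60) (L Y : ℕ) : (dt V (hd L K (nrm k L K Y)) : ℝ) =
      ∑ s ∈ range LL, (dig 128 V s : ℝ) * (dig 128 (nrm k L K Y) (LL - 1 - s) : ℝ) ^ 2 := by
  have hL : LL - 1 + 1 = LL := rfl
  change (dig 128 (V * hd L K (nrm k L K Y)) (LL - 1) : ℝ) = _
  rw [h.dig_mul hp (fun j _ => ?_) (by omega), hL]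
  · refine sum_congr rfl fun s _ => ?_
    rw [Ck.dig_hd h1 (by omega), Nat.cast_pow]
  · have h3 := Ck.dig_nrm_lt h1 L Y j
    have h4 : dig 128 (nrm k L K Y) j ^ 2 ≤ 2 ^ 60 := by
      refine (Nat.pow_le_pow_left h3.le 2).trans ?_
      rw [← pow_mul]
      exact Nat.pow_le_pow_right (by norm_num) (by omega)
    rw [Ck.dig_hd h1 (by omega)]
    exact_mod_cast h4

end Pool.Agent.Lib.MP_c03ca8_nt.U.Pm
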