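import Pool.Agent.Lib.MP_c03ca8_nt.U.OldDat

set_option autoImplicit false

/-! The reduction of the certificate with free parameters to a few integers. -/

namespace Pool.Agent.Lib.MP_c03ca8_nt.U.Pm

open Finset Polynomial Pool.Agent.Lib.MP_6cad4c_al.Br H
open H.Ck (sm tr nrm hd LL ml pw dt mu Pr Ap)

variable {P : Pm}

theorem lhs_le (hP : P.Good) (h : sm P.wn 15 0 ≤ 2 ^ 80) :
    ∑ s ∈ range LL, P.dat.Q P.n s * P.dat.Θ s ≤
      (P.dot1 + LL * ((2 * P.n + 1) * (2 ^ 8) ^ 2)) / 2 ^ 60 := by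
  have hp := pr_Wr hP h
  have h0 : (0 : ℝ) ≤ 2 * P.n - 1 := by
    have h1 : 1 ≤ P.n := hP.2.2.1.ge.trans (Nat.div_le_self _ _)
    have h2 : (1 : ℝ) ≤ P.n := by exact_mod_cast h1
    linarith
  have h1 := (ap_Vn hP h).ml (ap_W1 hP h) (hp.pow _) hp h0 zero_le_one
  have h2 : ∑ s ∈ range LL, P.dat.Q P.n s * P.dat.Θ s =
      ∑ u ∈ range LL, (P.Wr ^ P.n * P.Wr).coeff u * P.hf u ^ 2 := by
    rw [← pow_succ]
    exact Ck.sum_theta P.dat P.hf_zero P.n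
  rw [h2, dot1, Hr, dot_eq h1 ((hp.pow _).mul hp) (by norm_num) (by norm_num), ← Hr,
    le_div_iff₀ (by positivity), sum_mul, ← nsmul_eq_mul, ← card_range LL, ← sum_const,
    card_range, ← sum_add_distrib]
  refine sum_le_sum fun u hu => ?_
  have h4 := (h1 u (mem_range.1 hu)).2
  have h5 : P.hf u = dig 128 P.Hr (LL - 1 - u) := if_pos (mem_range.1 hu)
  have h6 : P.hf u ^ 2 ≤ (2 ^ 8) ^ 2 := pow_le_pow_left₀ (P.hf_nonneg u) (P.hf_le u) 2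
  have h7 := mul_le_mul_of_nonneg_right h4 (sq_nonneg (P.hf u))
  have h8 := mul_le_mul_of_nonneg_left h6 (show (0 : ℝ) ≤ 2 * P.n + 1 by linarith)
  rw [← h5]
  linarith

theorem conv_eq (hP : P.Good) {s : ℕ} (hs : s < LL) : ∑ i ∈ range (LL - 1 - s + 1),
    (∑ c ∈ range P.dat.M, if P.lam c = i then (P.gn c : ℝ) else 0) *
      dig 128 P.Hr (LL - 1 - s - i) = 2 ^ 58 * P.dat.Φ s := by
  simp only [sum_mul, Dat.Φ, gl_eq hP]
  rw [sum_comm, mul_sum]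
  refine sum_congr rfl fun c _ => ?_
  simp only [ite_mul, zero_mul, sum_ite_eq, mem_range]
  change _ = 2 ^ 58 * (_ * P.hf (s + P.lam c))
  unfold hf
  by_cases hc : s + P.lam c < LL
  · rw [if_pos hc, if_pos (by omega), Nat.sub_add_eq]
    ring
  · rw [if_neg hc, if_neg (by omega)]
    ring

theorem phi_nonneg (hP : P.Good) (s : ℕ) : 0 ≤ P.dat.Φ s :=
  sum_nonneg fun c _ => mul_nonneg (by rw [gl_eq hP]; positivity) (P.hf_nonneg _)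

theorem phi_le (hP : P.Good) (h : sm P.gn 15 0 ≤ P.G) (s : ℕ) : P.dat.Φ s ≤ P.dat.Φm := by
  have h1 : (sm P.gn 15 0 : ℝ) ≤ P.G := Nat.cast_le.2 h
  rw [sm_cast P] at h1
  calc P.dat.Φ s ≤ ∑ c ∈ range P.dat.M, (P.gn c : ℝ) * (2 ^ 8 / 2 ^ 58) := by
        refine sum_le_sum fun c _ => ?_
        have := mul_le_mul_of_nonneg_left (P.hf_le (s + P.lam c))
          (Nat.cast_nonneg (α := ℝ) (P.gn c))
        rw [gl_eq hP]
        change _ * P.hf (s + P.lam c) ≤ _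
        linarith
    _ ≤ P.G * 2 ^ 8 / 2 ^ 58 := by
        rw [← sum_mul]
        linarith

theorem dig_phi (hP : P.Good) (h : sm P.gn 15 0 ≤ P.G) {s : ℕ} (hs : s < LL) :
    (dig 128 P.Ph (LL - 1 - s) : ℝ) = 2 ^ 58 * P.dat.Φ s := by
  have hG := hP.2.2.2.2.2.2
  have h1 : ∀ s < LL, ((∑ i ∈ range (LL - 1 - s + 1),
      dig 128 P.Gp i * dig 128 P.Hr (LL - 1 - s - i) : ℕ) : ℝ) = 2 ^ 58 * P.dat.Φ s :=
    fun s hs => by
      rw [← conv_eq hP hs, Nat.cast_sum]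
      refine sum_congr rfl fun i _ => ?_
      rw [Nat.cast_mul, Gp, dig_tr hP P.gn (h.trans_lt (hG.trans (by norm_num)))]
  rw [Ph, Ck.dig_mul' P.Gp P.Hr (N := LL) (fun j hj => ?_) (by omega), h1 s hs]
  have h2 := h1 (LL - 1 - j) (by omega)
  have h3 : P.dat.Φ (LL - 1 - j) ≤ P.G * 2 ^ 8 / 2 ^ 58 := phi_le hP h _
  have h4 : (P.G : ℝ) < (2 ^ 100 : ℕ) := Nat.cast_lt.2 hG
  rw [show LL - 1 - (LL - 1 - j) = j by omega] at h2
  rw [← Nat.cast_lt (α := ℝ), h2]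
  push_cast at h4 ⊢
  linarith

theorem rhs_ge (hP : P.Good) (h : sm P.wn 15 0 ≤ 2 ^ 80) (h' : sm P.gn 15 0 ≤ P.G) :
    (P.dot2 : ℝ) * (2 ^ P.k) ^ 2 / 2 ^ 176 ≤ ∑ s ∈ range LL, P.dat.Q P.n s * P.dat.Φ s ^ 2 := by
  have hp := (pr_Wr hP h).pow P.n
  have hk : P.k + 19 ≤ 128 := by
    have := hP.2.2.2.1
    omega
  rw [dot2, dot_eq (ap_Vn hP h) hp hk (by norm_num), sum_mul, sum_div]
  refine sum_le_sum fun s hs => ?_
  have h4 := (ap_Vn hP h s (mem_range.1 hs)).1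
  have h5 : ((dig 128 (nrm P.k P.L 19 P.Ph) (LL - 1 - s) * 2 ^ P.k : ℕ) : ℝ) ≤
      dig 128 P.Ph (LL - 1 - s) := Nat.cast_le.2 (Ck.dig_nrm_le hk _ _ _)
  rw [dig_phi hP h' (mem_range.1 hs)] at h5
  push_cast at h5
  have h7 := mul_le_mul h4 (pow_le_pow_left₀ (by positivity) h5 2) (sq_nonneg _)
    (mul_nonneg (by positivity) (hp.nn s))
  rw [div_le_iff₀ (by positivity), mul_assoc, ← mul_pow]
  refine le_trans h7 (le_of_eq ?_)
  change _ = (P.Wr ^ P.n).coeff s * _ * _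
  ring

/-- The exponent of the tail bound. -/
noncomputable def ex (P : Pm) (s0 s1 s2 : ℝ) : ℝ :=
  P.n * (((1 - P.t * P.S / 2 ^ 36 + 253 / 500 * (P.t * P.S / 2 ^ 36) ^ 2) * s0 +
    ((P.t / 2 ^ 36 - 253 / 500 * (P.t / 2 ^ 36) ^ 2 * (2 * P.S)) * s1 +
      253 / 500 * (P.t / 2 ^ 36) ^ 2 * s2)) / 2 ^ 80 - 1) -
    P.t * (1 - 246204 * (2 * P.S / 2 ^ 36) - P.S / 2 ^ 36)

theorem tl_le (hP : P.Good) (h : P.ex (sm P.wn 15 0) (sm P.w1 15 0) (sm P.w2 15 0) ≤ -10) :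
    P.dat.Tl P.n ≤ 1 / 22026 := by
  have ht : (0 : ℝ) ≤ P.t := Nat.cast_nonneg _
  have hS : ((40 * (P.t * P.S) : ℕ) : ℝ) ≤ (2 ^ 36 : ℕ) := Nat.cast_le.2 hP.2.2.2.2.2.1
  push_cast at hS
  have h3 : ∑ c ∈ range P.dat.M, P.dat.w c * Real.exp (P.dat.τ * P.dat.ρ c) ≤
      ∑ c ∈ range P.dat.M,
      ((1 - P.t * P.S / 2 ^ 36 + 253 / 500 * (P.t * P.S / 2 ^ 36) ^ 2) * (P.wn c : ℝ) +
        ((P.t / 2 ^ 36 - 253 / 500 * (P.t / 2 ^ 36) ^ 2 * (2 * P.S)) * (P.w1 c : ℝ) +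
          253 / 500 * (P.t / 2 ^ 36) ^ 2 * (P.w2 c : ℝ))) / 2 ^ 80 := by
    refine sum_le_sum fun c _ => ?_
    have h4 := mul_le_mul_of_nonneg_left (rN_le hP c) ht
    have h5 : (0 : ℝ) ≤ P.t * P.rN c := by positivity
    have h6 := Ck.exp_le (x := P.t * ((P.rN c - P.S) / 2 ^ 36))
      (abs_le.2 ⟨by linarith, by linarith⟩)
    refine (mul_le_mul_of_nonneg_left h6 (w_nonneg hP c)).trans (le_of_eq ?_)
    rw [w_eq hP]
    change _ = (_ * _ + (_ * ((P.wn c * P.rN c : ℕ) : ℝ) +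
      _ * ((P.wn c * P.rN c * P.rN c : ℕ) : ℝ))) / _
    push_cast
    ring
  rw [← sum_div, sum_add_distrib, sum_add_distrib, ← mul_sum, ← mul_sum, ← mul_sum, ← sm_cast P,
    ← sm_cast P, ← sm_cast P] at h3
  have h8 : 0 ≤ ∑ c ∈ range P.dat.M, P.dat.w c * Real.exp (P.dat.τ * P.dat.ρ c) :=
    sum_nonneg fun c _ => mul_nonneg (w_nonneg hP c) (Real.exp_pos _).le
  have h9 := pow_le_pow_left₀ h8
    (h3.trans ((sub_add_cancel _ 1).symm.le.trans (Real.add_one_le_exp _))) P.n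
  rw [← Real.exp_nat_mul] at h9
  have h10 : (22026 : ℝ) ≤ Real.exp 10 := by
    have := pow_le_pow_left₀ (by norm_num) Real.exp_one_gt_d9.le 10
    rw [Real.exp_one_pow] at this
    refine le_trans (by norm_num) this
  refine (mul_le_mul_of_nonneg_left h9 (Real.exp_pos _).le).trans ?_
  rw [← Real.exp_add, one_div, le_inv_comm₀ (Real.exp_pos _) (by norm_num), ← Real.exp_neg]
  refine h10.trans (Real.exp_le_exp.2 ?_)
  unfold ex at h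
  change (10 : ℝ) ≤ -(-((P.t : ℝ) * (1 - 246204 * (2 * P.S / 2 ^ 36) - P.S / 2 ^ 36)) + _)
  linarith

theorem ok (hP : P.Good) {s0 s1 s2 d1 d2 : ℕ} {r : ℝ} (hr : 0 ≤ r)
    (hs : (Nat.beq (sm P.wn 15 0) s0 && Nat.beq (sm P.w1 15 0) s1 && Nat.beq (sm P.w2 15 0) s2 &&
      Nat.ble (sm P.gn 15 0) P.G) = true)
    (hd : (Nat.ble P.dot1 d1 && Nat.ble d2 P.dot2) = true) (h0 : s0 ≤ 2 ^ 80)
    (hT : P.ex s0 s1 s2 ≤ -10)
    (hI : r * ((d1 + 246205 * ((2 * P.n + 1) * (2 ^ 8) ^ 2)) / 2 ^ 60) +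
      (P.n + 1) * ((P.G * 2 ^ 8 / 2 ^ 58) ^ 2 * (1 / 22026)) <
      (P.n + 1) * (d2 * (2 ^ P.k) ^ 2 / 2 ^ 176)) : P.dat.OK P.n r := by
  simp only [Bool.and_eq_true, Nat.beq_eq, Nat.ble_eq] at hs hd
  obtain ⟨⟨⟨rfl, rfl⟩, rfl⟩, hG⟩ := hs
  have hL : ((LL : ℕ) : ℝ) = 246205 := by norm_num [LL]
  refine ⟨by change 0 < 2 ^ 15; norm_num, ?_, fun a b h => ?_, ?_, fun c => ?_, P.hf_nonneg,
    P.hf_zero, ?_, ?_, fun c _ => ?_, fun c _ => ?_, Nat.cast_nonneg _, phi_le hP hG, ?_⟩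
  · change ((P.aN 0 : ℕ) : ℝ) / 2 ^ 36 = 0
    rw [aN_zero]
    simp
  · exact div_le_div_of_nonneg_right (Nat.cast_le.2 (aN_mono hP.1 h)) (by positivity)
  · change ((P.aN (2 ^ 15) : ℕ) : ℝ) / 2 ^ 36 ≤ 1
    rw [div_le_one (by positivity)]
    exact_mod_cast hP.2.2.2.2.1
  · exact div_nonneg (Nat.cast_nonneg _) (by norm_num)
  · change (0 : ℝ) ≤ 2 * P.S / 2 ^ 36
    positivity
  · change (2 * P.S : ℝ) / 2 ^ 36 * (LL : ℕ) + (1 - 246204 * (2 * P.S / 2 ^ 36)) ≤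
      1 + 2 * P.S / 2 ^ 36
    rw [hL]
    linarith
  · have h := congrArg (Nat.cast (R := ℝ)) (lam_rN hP.1 c)
    push_cast at h
    change ((P.aN (c + 1) : ℕ) : ℝ) / 2 ^ 36 ≤
      2 * P.S / 2 ^ 36 * P.lam c + (P.rN c - P.S) / 2 ^ 36
    linarith
  · have h := rN_le hP c
    change ((P.rN c : ℝ) - P.S) / 2 ^ 36 ≤ P.S / 2 ^ 36
    linarith
  · have a1 := lhs_le hP h0
    have a2 := rhs_ge hP h0 hG
    have a3 := tl_le hP hT
    have a4 : (P.dot1 : ℝ) ≤ d1 := Nat.cast_le.2 hd.1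
    have a5 : (d2 : ℝ) ≤ P.dot2 := Nat.cast_le.2 hd.2
    have hn : (0 : ℝ) ≤ P.n + 1 := add_nonneg (Nat.cast_nonneg _) zero_le_one
    rw [hL] at a1
    have b0 : ∑ s ∈ range LL, P.dat.Q P.n s * P.dat.Θ s ≤
        (d1 + 246205 * ((2 * P.n + 1) * (2 ^ 8) ^ 2)) / 2 ^ 60 := by linarith
    have b1 := mul_le_mul_of_nonneg_left b0 hr
    have b2 := mul_le_mul_of_nonneg_left ((div_le_div_of_nonneg_right
      (mul_le_mul_of_nonneg_right a5 (sq_nonneg _)) (by positivity)).trans a2) hn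
    have b3 := mul_le_mul_of_nonneg_left
      (mul_le_mul_of_nonneg_left a3 (sq_nonneg ((P.G : ℝ) * 2 ^ 8 / 2 ^ 58))) hn
    exact (add_le_add b1 b3).trans_lt (hI.trans_le b2)

end Pool.Agent.Lib.MP_c03ca8_nt.U.Pm
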