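import Pool.Agent.Lib.MP_c03ca8_nt.U.Sum

set_option autoImplicit false

noncomputable section

namespace Pool.Agent.Lib.MP_c03ca8_nt.U

open Finset H

/-! The ramp and the estimates for fixed values of the other coordinates. -/

/-- The ramp. -/
def Dt.φ (D : Dt) (x : ℝ) : ℝ := max 0 (min 1 ((D.B - x) / D.D))

/-- The function without the product, when the other coordinates have `t` big cells, lattice sum
`s` and residual sum `R`. -/
def Dt.f (D : Dt) (t s : ℕ) (R : ℝ) : ℝ := D.ψ t * D.φ R * D.h s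

/-- The marginal. -/
def Dt.X (D : Dt) (t s : ℕ) (R : ℝ) : ℝ :=
  ∑ c ∈ range D.M, D.f (D.bt c + t) (D.lam c + s) (D.ρ c + R) * (D.g c * len D.α c)

/-- The indicator of the tail. -/
def Dt.bad (D : Dt) (s : ℕ) (R : ℝ) : ℝ := if s < D.Λ ∧ D.B - D.D - D.ρm < R then 1 else 0

variable {D : Dt} {n : ℕ} {r z0 z1 y : ℝ}

theorem φ0 (D : Dt) (x : ℝ) : 0 ≤ D.φ x := le_max_left _ _

theorem φ1 (D : Dt) (x : ℝ) : D.φ x ≤ 1 := max_le zero_le_one (min_le_left _ _)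

theorem φ_anti (hD : 0 < D.D) {x x' : ℝ} (h : x ≤ x') : D.φ x' ≤ D.φ x :=
  max_le_max le_rfl (min_le_min le_rfl (div_le_div_of_nonneg_right (by linarith) hD.le))

theorem φ_ne (hD : 0 < D.D) {x : ℝ} (h : D.φ x ≠ 0) : x ≤ D.B := by
  by_contra hc
  exact h (max_eq_left ((min_le_right _ _).trans
    (div_nonpos_of_nonpos_of_nonneg (by linarith) hD.le)))

theorem φ_one (hD : 0 < D.D) {x : ℝ} (h : x ≤ D.B - D.D) : D.φ x = 1 := by
  rw [Dt.φ, min_eq_left ((one_le_div hD).2 (by linarith)), max_eq_right zero_le_one]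

theorem φ_lip (hD : 0 < D.D) (x : ℝ) {u : ℝ} (h : 0 ≤ u) : D.φ x - u / D.D ≤ D.φ (u + x) := by
  have h1 : 0 ≤ u / D.D := div_nonneg h hD.le
  have h2 : (D.B - x) / D.D = (D.B - (u + x)) / D.D + u / D.D := by ring
  have h3 := φ0 D (u + x)
  have h4 : min 1 ((D.B - (u + x)) / D.D) ≤ D.φ (u + x) := le_max_right _ _
  rw [sub_le_iff_le_add]
  refine max_le (by linarith) ?_
  rw [h2]
  rcases le_total 1 ((D.B - (u + x)) / D.D) with h5 | h5
  · rw [min_eq_left h5] at h4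
    exact (min_le_left _ _).trans (by linarith)
  · rw [min_eq_right h5] at h4
    exact (min_le_right _ _).trans (by linarith)

theorem f0 (hD : D.OK n r z0 z1 y) (t s : ℕ) (R : ℝ) : 0 ≤ D.f t s R :=
  mul_nonneg (mul_nonneg (hD.ψ0 _) (φ0 D _)) (hD.h0 _)

theorem gl0 (hD : D.OK n r z0 z1 y) (c : ℕ) : 0 ≤ D.g c * len D.α c :=
  mul_nonneg (hD.g0 c) (len0 hD c)

theorem ρm0 (hD : D.OK n r z0 z1 y) : 0 ≤ D.ρm := by
  obtain ⟨c, hc, -⟩ := exists_ne_zero_of_sum_ne_zero hD.ws0.ne'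
  exact (hD.ρ0 c hc).trans (hD.ρle c (mem_range.1 (mem_filter.1 hc).1))

theorem bt_sml {c : ℕ} (h : c ∈ D.sml) : D.bt c = 0 := if_pos (mem_filter.1 h).2

theorem bt_big {c : ℕ} (h : c ∈ D.big) : D.bt c = 1 := if_neg (mem_filter.1 h).2

theorem lt_of_big (hD : D.OK n r z0 z1 y) {c t s : ℕ} (h : c ∈ D.big) (hts : t ≤ s)
    (h1 : D.h (D.lam c + s) ≠ 0) : s < D.Λ ∧ t + 1 < D.Λ := by
  have h2 := (mem_filter.1 h).2
  have h3 : D.lam c + s < D.Λ := not_le.1 fun hc => h1 (hD.hΛ _ hc)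
  omega

theorem f_sq_le (D : Dt) (t s : ℕ) (R : ℝ) : D.f t s R ^ 2 ≤ D.ψ t ^ 2 * D.h s ^ 2 := by
  have h1 : D.φ R ^ 2 ≤ 1 := pow_le_one₀ (φ0 D R) (φ1 D R)
  have h2 := mul_le_mul_of_nonneg_left h1 (mul_nonneg (sq_nonneg (D.ψ t)) (sq_nonneg (D.h s)))
  rw [Dt.f]
  linarith

theorem le_f_sq (hD : D.OK n r z0 z1 y) (t s : ℕ) (R : ℝ) :
    D.ψ t ^ 2 * D.h s ^ 2 - D.hm ^ 2 * (D.ψ t ^ 2 * D.bad s R) ≤ D.f t s R ^ 2 := by
  unfold Dt.bad
  split_ifs with h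
  · have h1 := mul_le_mul_of_nonneg_left (pow_le_pow_left₀ (hD.h0 s) (hD.hle s) 2)
      (sq_nonneg (D.ψ t))
    linarith [sq_nonneg (D.f t s R)]
  · rw [not_and_or, not_lt, not_lt] at h
    rcases h with h | h
    · rw [Dt.f, hD.hΛ s h]
      simp
    · rw [Dt.f, φ_one hD.D0 (by linarith [ρm0 hD])]
      exact le_of_eq (by ring)

theorem sq_sum_le (hD : D.OK n r z0 z1 y) {t s : ℕ} (hts : t ≤ s) (R : ℝ) :
    ∑ c ∈ range D.M, D.f (D.bt c + t) (D.lam c + s) (D.ρ c + R) ^ 2 * D.w c ≤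
      D.ws * D.f t s R ^ 2 +
        D.θ2 ^ 2 * D.wb * D.hm ^ 2 * (D.ψ t ^ 2 * if s < D.Λ then 1 else 0) := by
  rw [D.sum_split, Dt.ws, Dt.wb, sum_mul, mul_sum, sum_mul, sum_mul]
  refine add_le_add (sum_le_sum fun c hc => ?_) (sum_le_sum fun c hc => ?_)
  · rw [bt_sml hc, (mem_filter.1 hc).2, zero_add, zero_add, mul_comm (D.w c)]
    refine mul_le_mul_of_nonneg_right (pow_le_pow_left₀ (f0 hD _ _ _) ?_ 2) (w0 hD c)
    exact mul_le_mul_of_nonneg_right (mul_le_mul_of_nonneg_left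
      (φ_anti hD.D0 (le_add_of_nonneg_left (hD.ρ0 c hc))) (hD.ψ0 t)) (hD.h0 s)
  · have hw := w0 hD c
    by_cases h : D.h (D.lam c + s) = 0
    · rw [Dt.f, h, mul_zero, zero_pow two_ne_zero, zero_mul]
      split_ifs <;> positivity
    · obtain ⟨h1, h2⟩ := lt_of_big hD hc hts h
      have h3 := pow_le_pow_left₀ (hD.ψ0 _) (hD.ψhi t h2) 2
      have h4 := mul_le_mul h3 (pow_le_pow_left₀ (hD.h0 (D.lam c + s)) (hD.hle _) 2)
        (sq_nonneg _) (sq_nonneg _)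
      have h5 := mul_le_mul_of_nonneg_right ((f_sq_le D (t + 1) _ (D.ρ c + R)).trans h4) hw
      rw [if_pos h1, bt_big hc, add_comm 1 t]
      linarith

theorem le_X (hD : D.OK n r z0 z1 y) {t s : ℕ} (hts : t ≤ s) (R : ℝ) :
    D.G * D.f t s R ^ 2 + D.θ1 * (D.ψ t ^ 2 * (D.h s * D.A s)) -
      (D.θ1 * D.hm * D.Am + D.hm ^ 2 * D.K / D.D) * (D.ψ t ^ 2 * D.bad s R) ≤
      D.f t s R * D.X t s R := by
  have hf := f0 hD t s R
  have hA : 0 ≤ D.A s := sum_nonneg fun c _ => mul_nonneg (gl0 hD c) (hD.h0 _)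
  unfold Dt.bad
  rw [Dt.X, D.sum_split, mul_add (D.f t s R)]
  split_ifs with h
  · have h1 : D.G * D.f t s R - D.ψ t * D.h s * (D.K / D.D) ≤
        ∑ c ∈ D.sml, D.f (D.bt c + t) (D.lam c + s) (D.ρ c + R) * (D.g c * len D.α c) := by
      rw [Dt.G, Dt.K, sum_mul, sum_div, mul_sum, ← sum_sub_distrib]
      refine sum_le_sum fun c hc => ?_
      have h2 := mul_le_mul_of_nonneg_left (φ_lip hD.D0 R (hD.ρ0 c hc))
        (mul_nonneg (mul_nonneg (hD.ψ0 t) (hD.h0 s)) (gl0 hD c))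
      rw [bt_sml hc, (mem_filter.1 hc).2, zero_add, zero_add, Dt.f, Dt.f, mul_div_assoc]
      linarith
    have h2 : 0 ≤ D.f t s R *
        ∑ c ∈ D.big, D.f (D.bt c + t) (D.lam c + s) (D.ρ c + R) * (D.g c * len D.α c) :=
      mul_nonneg hf (sum_nonneg fun c _ => mul_nonneg (f0 hD _ _ _) (gl0 hD c))
    have h3 := mul_le_mul_of_nonneg_left h1 hf
    have hK : 0 ≤ D.K / D.D := div_nonneg
      (sum_nonneg fun c hc => mul_nonneg (gl0 hD c) (hD.ρ0 c hc)) hD.D0.le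
    have h4 : D.φ R * D.h s ^ 2 ≤ 1 * D.hm ^ 2 := mul_le_mul (φ1 D R)
      (pow_le_pow_left₀ (hD.h0 s) (hD.hle s) 2) (sq_nonneg _) zero_le_one
    have h5 := mul_le_mul_of_nonneg_left h4 (mul_nonneg (sq_nonneg (D.ψ t)) hK)
    have h6 := mul_le_mul_of_nonneg_left
      (mul_le_mul (hD.hle s) (hD.Ale s) hA ((hD.h0 s).trans (hD.hle s)))
      (mul_nonneg hD.θ10 (sq_nonneg (D.ψ t)))
    have h7 : D.f t s R * (D.ψ t * D.h s * (D.K / D.D)) =
        D.ψ t ^ 2 * (D.K / D.D) * (D.φ R * D.h s ^ 2) := by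
      rw [Dt.f]
      ring
    rw [mul_div_assoc]
    linarith
  · rw [not_and_or, not_lt, not_lt] at h
    rcases h with h | h
    · rw [Dt.f, hD.hΛ s h]
      simp
    · have hρ := ρm0 hD
      have h0 : ∀ c ∈ range D.M, D.φ (D.ρ c + R) = 1 := fun c hc =>
        φ_one hD.D0 (by linarith [hD.ρle c (mem_range.1 hc)])
      have hR : D.φ R = 1 := φ_one hD.D0 (by linarith)
      have h1 : ∑ c ∈ D.sml, D.f (D.bt c + t) (D.lam c + s) (D.ρ c + R) * (D.g c * len D.α c) =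
          D.G * D.f t s R := by
        rw [Dt.G, sum_mul]
        refine sum_congr rfl fun c hc => ?_
        rw [bt_sml hc, (mem_filter.1 hc).2, zero_add, zero_add, Dt.f, Dt.f,
          h0 c (mem_filter.1 hc).1, hR, mul_comm]
      have h2 : D.θ1 * D.ψ t * D.A s ≤
          ∑ c ∈ D.big, D.f (D.bt c + t) (D.lam c + s) (D.ρ c + R) * (D.g c * len D.α c) := by
        rw [Dt.A, mul_sum]
        refine sum_le_sum fun c hc => ?_
        rw [Dt.f, h0 c (mem_filter.1 hc).1, bt_big hc, add_comm 1 t, add_comm s]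
        by_cases h3 : D.h (D.lam c + s) = 0
        · rw [h3]
          simp
        · have h4 := mul_le_mul_of_nonneg_right (hD.ψlo t (lt_of_big hD hc hts h3).2)
            (mul_nonneg (gl0 hD c) (hD.h0 (D.lam c + s)))
          linarith
      have h3 := mul_le_mul_of_nonneg_left h2 hf
      have h4 : D.f t s R * (D.θ1 * D.ψ t * D.A s) = D.θ1 * (D.ψ t ^ 2 * (D.h s * D.A s)) := by
        rw [Dt.f, hR]
        ring
      rw [h1]
      linarith

end Pool.Agent.Lib.MP_c03ca8_nt.U
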