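import Pool.Agent.Lib.MP_c03ca8_nt.U.Defs

set_option autoImplicit false

noncomputable section

namespace Pool.Agent.Lib.MP_c03ca8_nt.U

open Finset Polynomial H

/-! Sums over tuples of cells, by the number of big cells and the lattice sum. -/

variable {ι : Type} [Fintype ι] [DecidableEq ι]

/-- One for a big cell, zero for a small cell. -/
def Dt.bt (D : Dt) (c : ℕ) : ℕ := if D.lam c = 0 then 0 else 1

theorem Dt.bt_le (D : Dt) (c : ℕ) : D.bt c ≤ D.lam c := by
  unfold Dt.bt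
  split_ifs <;> omega

theorem Dt.bt_le_one (D : Dt) (c : ℕ) : D.bt c ≤ 1 := by
  unfold Dt.bt
  split_ifs <;> omega

theorem Dt.sum_split {A : Type} [AddCommMonoid A] (D : Dt) (f : ℕ → A) :
    ∑ c ∈ range D.M, f c = ∑ c ∈ D.sml, f c + ∑ c ∈ D.big, f c :=
  (sum_filter_add_sum_filter_not _ _ _).symm

omit [Fintype ι] in
theorem prod_mon {A : Type} [CommSemiring A] (s : Finset ι) (a : ι → ℕ) (b : ι → A) :
    ∏ l ∈ s, monomial (a l) (b l) = monomial (∑ l ∈ s, a l) (∏ l ∈ s, b l) := by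
  induction s using Finset.induction_on with
  | empty => simp
  | insert x s hx ih =>
    rw [prod_insert hx, prod_insert hx, sum_insert hx, ih, monomial_mul_monomial]

theorem pow_lin {A : Type} [CommSemiring A] (a b : A) (n : ℕ) :
    (monomial 1 b + monomial 0 a) ^ n =
      ∑ t ∈ range (n + 1), monomial t (n.choose t * a ^ (n - t) * b ^ t) := by
  rw [add_pow]
  refine sum_congr rfl fun t _ => ?_
  rw [monomial_pow, monomial_pow, monomial_mul_monomial, ← C_eq_natCast, monomial_mul_C, one_mul,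
    zero_mul, add_zero]
  congr 1
  ring

theorem sum_bt {A : Type} [CommSemiring A] (D : Dt) (hM : 0 < D.M) (i : ι) {n : ℕ}
    (hn : Fintype.card ι = n + 1) (v f : ℕ → A) :
    ∑ j ∈ (Ce ι D.M).filter (fun j => j i = 0),
      (∏ l ∈ univ.erase i, v (j l)) * f (∑ l ∈ univ.erase i, D.bt (j l)) =
      ∑ t ∈ range (n + 1),
        n.choose t * (∑ c ∈ D.sml, v c) ^ (n - t) * (∑ c ∈ D.big, v c) ^ t * f t := by
  have h1 := sum_fix hM i fun c => monomial (D.bt c) (v c)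
  have h2 : ∑ c ∈ range D.M, monomial (D.bt c) (v c) =
      monomial 1 (∑ c ∈ D.big, v c) + monomial 0 (∑ c ∈ D.sml, v c) := by
    rw [D.sum_split, add_comm, map_sum, map_sum]
    congr 1
    · exact sum_congr rfl fun c hc => by rw [Dt.bt, if_neg (mem_filter.1 hc).2]
    · exact sum_congr rfl fun c hc => by rw [Dt.bt, if_pos (mem_filter.1 hc).2]
  rw [h2, hn, Nat.add_sub_cancel, pow_lin] at h1
  have h3 := congrArg (lsum (R := A) fun t => LinearMap.mulRight A (f t)) h1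
  simpa only [prod_mon, map_sum, lsum_apply, sum_monomial_index, LinearMap.mulRight_apply,
    zero_mul] using h3

variable {D : Dt} {n : ℕ} {r z0 z1 y : ℝ}

theorem len0 (hD : D.OK n r z0 z1 y) (c : ℕ) : 0 ≤ len D.α c :=
  sub_nonneg.2 (hD.mono (Nat.le_succ c))

theorem w0 (hD : D.OK n r z0 z1 y) (c : ℕ) : 0 ≤ D.w c := mul_nonneg (sq_nonneg _) (len0 hD c)

theorem coeff_W_pow (D : Dt) {s t : ℕ} (h : s < t) : (D.W ^ t).coeff s = 0 := by
  have h1 : X ∣ D.W := dvd_sum fun c hc => by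
    rw [← C_mul_X_pow_eq_monomial]
    exact (dvd_pow_self X (mem_filter.1 hc).2).mul_left _
  exact X_pow_dvd_iff.1 (pow_dvd_pow_of_dvd h1 t) s h

theorem Q_eq (D : Dt) {s L : ℕ} (h : s < L) : D.Q s =
    ∑ t ∈ range L, D.N.choose t * D.a0 ^ (D.N - t) * D.a1 ^ t * (D.W ^ t).coeff s := by
  have h1 : ∀ K, min (D.N + 1) L ≤ K →
      ∑ t ∈ range K, D.N.choose t * D.a0 ^ (D.N - t) * D.a1 ^ t * (D.W ^ t).coeff s =
      ∑ t ∈ range (min (D.N + 1) L),
        D.N.choose t * D.a0 ^ (D.N - t) * D.a1 ^ t * (D.W ^ t).coeff s := fun K hK => by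
    refine (sum_subset (range_subset_range.2 hK) fun t _ ht => ?_).symm
    rw [mem_range, lt_min_iff, not_and_or, not_lt, not_lt] at ht
    rcases ht with ht | ht
    · rw [Nat.choose_eq_zero_of_lt ht]
      simp
    · rw [coeff_W_pow D (h.trans_le ht), mul_zero]
  rw [h1 L (min_le_right _ _), ← h1 (D.N + 1) (min_le_left _ _), Dt.Q, add_comm (C _), add_pow,
    finsetSum_coeff]
  refine sum_congr rfl fun t _ => ?_
  rw [mul_pow, ← C_pow, ← C_pow, ← C_eq_natCast, coeff_mul_C, coeff_mul_C, coeff_C_mul]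
  ring

theorem sum_Q (hD : D.OK n r z0 z1 y) (hn : Fintype.card ι = n + 1) (i : ι) (φ : ℕ → ℝ)
    (hφ : ∀ s, D.Λ ≤ s → φ s = 0) :
    ∑ j ∈ (Ce ι D.M).filter (fun j => j i = 0), (∏ l ∈ univ.erase i, D.w (j l)) *
      D.ψ (∑ l ∈ univ.erase i, D.bt (j l)) ^ 2 * φ (∑ l ∈ univ.erase i, D.lam (j l)) =
      ∑ s ∈ range D.Λ, D.Q s * φ s := by
  have h1 := sum_bt D hD.M_pos i hn (fun c => monomial (D.lam c) (D.w c)) fun t => C (D.ψ t ^ 2)
  have h2 : ∑ c ∈ D.sml, monomial (D.lam c) (D.w c) = C D.ws := by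
    rw [Dt.ws, map_sum]
    exact sum_congr rfl fun c hc => by rw [(mem_filter.1 hc).2, monomial_zero_left]
  rw [h2, ← Dt.W] at h1
  have h3 : ∀ s ∈ range D.Λ, D.Q s * φ s = ∑ j ∈ (Ce ι D.M).filter (fun j => j i = 0),
      if ∑ l ∈ univ.erase i, D.lam (j l) = s then (∏ l ∈ univ.erase i, D.w (j l)) *
        D.ψ (∑ l ∈ univ.erase i, D.bt (j l)) ^ 2 * φ s else 0 := fun s hs => by
    have h4 := congrArg (fun p => coeff p s) h1
    simp only [prod_mon, finsetSum_coeff, coeff_mul_C, coeff_monomial] at h4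
    have h5 : D.Q s = ∑ t ∈ range (n + 1),
        ((n.choose t : ℝ[X]) * C D.ws ^ (n - t) * D.W ^ t).coeff s * D.ψ t ^ 2 := by
      rw [Q_eq D (mem_range.1 hs), ← sum_subset (range_subset_range.2 hD.Λn) fun t _ ht => ?_]
      · refine sum_congr rfl fun t ht => ?_
        rw [← hD.ψsq t (mem_range.1 ht), ← C_eq_natCast, ← C_pow, ← C_mul, coeff_C_mul]
        ring
      · rw [← C_eq_natCast, ← C_pow, ← C_mul, coeff_C_mul,
          coeff_W_pow D ((mem_range.1 hs).trans_le (by simpa using ht)), mul_zero, zero_mul]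
    rw [h5, ← h4, sum_mul]
    simp only [ite_mul, zero_mul]
  rw [sum_congr rfl h3, sum_comm]
  refine sum_congr rfl fun j _ => ?_
  rw [sum_ite_eq]
  split_ifs with h
  · rfl
  · rw [hφ _ (by simpa using h), mul_zero]

theorem tail_le (hD : D.OK n r z0 z1 y) (hn : Fintype.card ι = n + 1) (i : ι) :
    ∑ j ∈ (Ce ι D.M).filter (fun j => j i = 0), (∏ l ∈ univ.erase i, D.w (j l)) *
      D.ψ (∑ l ∈ univ.erase i, D.bt (j l)) ^ 2 *
      (if ∑ l ∈ univ.erase i, D.lam (j l) < D.Λ ∧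
        D.B - D.D - D.ρm < ∑ l ∈ univ.erase i, D.ρ (j l) then 1 else 0) ≤ D.Tl n := by
  have h1 := sum_bt D hD.M_pos i hn (fun c => D.w c * Real.exp (D.τ * D.ρ c))
    fun t => if t < D.Λ then D.ψ t ^ 2 else 0
  rw [← Dt.ms, ← Dt.mb] at h1
  have h2 : 1 ≤ D.ms / D.ws := (one_le_div hD.ws0).2 (sum_le_sum fun c hc =>
    le_mul_of_one_le_right (w0 hD c) (Real.one_le_exp (mul_nonneg hD.τ0 (hD.ρ0 c hc))))
  have h3 : 0 ≤ D.mb := sum_nonneg fun c _ => mul_nonneg (w0 hD c) (Real.exp_pos _).le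
  have h4 : ∀ t, (0 : ℝ) ≤ D.N.choose t * D.a0 ^ (D.N - t) * D.a1 ^ t * D.mb ^ t := fun t => by
    have := hD.a00
    have := hD.a10
    positivity
  have h5 : ∑ t ∈ range (n + 1), n.choose t * D.ms ^ (n - t) * D.mb ^ t *
      (if t < D.Λ then D.ψ t ^ 2 else 0) ≤ (D.ms / D.ws) ^ n * (D.a0 + D.a1 * D.mb) ^ D.N := by
    have h6 : ∑ t ∈ range (n + 1), D.N.choose t * D.a0 ^ (D.N - t) * D.a1 ^ t * D.mb ^ t ≤
        (D.a0 + D.a1 * D.mb) ^ D.N := by
      rw [add_comm D.a0, add_pow, ← sum_filter_ne_zero]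
      refine le_trans (sum_le_sum_of_subset_of_nonneg (fun t ht => ?_) fun t _ _ => h4 t)
        (le_of_eq (sum_congr rfl fun t _ => by ring))
      by_contra hc
      rw [mem_range, not_lt] at hc
      exact (mem_filter.1 ht).2 (by rw [Nat.choose_eq_zero_of_lt hc]; simp)
    refine le_trans ?_ (mul_le_mul_of_nonneg_left h6 (by positivity))
    rw [mul_sum]
    refine sum_le_sum fun t _ => ?_
    split_ifs with ht
    · have h7 : D.ms ^ (n - t) = (D.ms / D.ws) ^ (n - t) * D.ws ^ (n - t) := by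
        rw [← mul_pow, div_mul_cancel₀ _ hD.ws0.ne']
      have h8 := mul_le_mul_of_nonneg_right (pow_le_pow_right₀ h2 (Nat.sub_le n t)) (h4 t)
      refine le_trans (le_of_eq ?_) h8
      rw [← hD.ψsq t ht, h7]
      ring
    · rw [mul_zero]
      exact mul_nonneg (by positivity) (h4 t)
  rw [← h1] at h5
  refine le_trans ?_ (mul_le_mul_of_nonneg_left h5 (Real.exp_pos _).le)
  rw [mul_sum]
  refine sum_le_sum fun j _ => ?_
  have h0 : 0 ≤ ∏ l ∈ univ.erase i, D.w (j l) := prod_nonneg fun l _ => w0 hD _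
  rw [prod_mul_distrib, ← Real.exp_sum, ← mul_sum]
  by_cases h : ∑ l ∈ univ.erase i, D.lam (j l) < D.Λ ∧
      D.B - D.D - D.ρm < ∑ l ∈ univ.erase i, D.ρ (j l)
  · rw [if_pos h, if_pos ((sum_le_sum fun l _ => D.bt_le (j l)).trans_lt h.1), mul_one]
    have h9 : 1 ≤ Real.exp (-(D.τ * (D.B - D.D - D.ρm))) *
        Real.exp (D.τ * ∑ l ∈ univ.erase i, D.ρ (j l)) := by
      rw [← Real.exp_add]
      refine Real.one_le_exp ?_
      have := mul_le_mul_of_nonneg_left h.2.le hD.τ0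
      linarith
    have := mul_le_mul_of_nonneg_left h9
      (mul_nonneg h0 (sq_nonneg (D.ψ (∑ l ∈ univ.erase i, D.bt (j l)))))
    linarith
  · rw [if_neg h, mul_zero]
    refine mul_nonneg (Real.exp_pos _).le (mul_nonneg (by positivity) ?_)
    split_ifs <;> positivity

end Pool.Agent.Lib.MP_c03ca8_nt.U
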