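import Pool.Agent.Lib.MP_c03ca8_nt.U.Mom
import Pool.Agent.Lib.MP_c03ca8_nt.U.CkMain

set_option autoImplicit false

noncomputable section

namespace Pool.Agent.Lib.MP_c03ca8_nt.U

open Finset Polynomial H

/-! The numbers. -/

theorem coeff_pow_nonneg {p : ℝ[X]} (h : ∀ s, 0 ≤ p.coeff s) (m s : ℕ) : 0 ≤ (p ^ m).coeff s := by
  induction m generalizing s with
  | zero =>
    rw [pow_zero, coeff_one]
    split_ifs <;> norm_num
  | succ m ih =>
    rw [pow_succ, coeff_mul]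
    exact sum_nonneg fun i _ => mul_nonneg (ih _) (h _)

theorem Q0_nonneg (s : ℕ) : 0 ≤ Q0 s := by
  refine coeff_pow_nonneg (fun t => ?_) _ s
  rw [coeff_add, coeff_C_mul, coeff_C, W0, finsetSum_coeff]
  refine add_nonneg (by split_ifs <;> norm_num) (mul_nonneg (by norm_num) (sum_nonneg fun l hl => ?_))
  have h : (1 : ℝ) ≤ l := Nat.one_le_cast.2 (mem_Ico.1 hl).1
  rw [coeff_monomial]
  split_ifs
  · exact div_nonneg (by norm_num) (by nlinarith)
  · exact le_rfl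

theorem wsv_le (n : ℕ) : wsv n ≤ n := sub_le_self _ (by positivity)

theorem wsv_ge (n : ℕ) : n - 16384 ≤ wsv n := by
  have h : (1 / 16384 + (n : ℝ)⁻¹)⁻¹ ≤ (1 / 16384)⁻¹ :=
    inv_anti₀ (by norm_num) (le_add_of_nonneg_right (by positivity))
  unfold wsv
  norm_num at h ⊢
  linarith

theorem log_pow_two (k : ℕ) : Real.log (2 ^ k) ≤ k * 0.6931471808 := by
  rw [Real.log_pow]
  exact mul_le_mul_of_nonneg_left Real.log_two_lt_d9.le (Nat.cast_nonneg k)

theorem G0_le (n : ℕ) : G0 n ≤ 10.0904 + n / 1073741824 := by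
  have h0 : (0 : ℝ) < 1 + n / 16384 := by positivity
  have h1 := Real.log_le_sub_one_of_pos (div_pos h0 (show (0 : ℝ) < 2 ^ 16 by norm_num))
  have h2 := log_pow_two 16
  rw [Real.log_div h0.ne' (by norm_num)] at h1
  unfold G0
  push_cast at h2
  linarith

theorem log_le_G0 {n : ℕ} (hn : 0 < n) : Real.log n ≤ G0 n + 9.704061 := by
  have h0 : (0 : ℝ) < n := Nat.cast_pos.2 hn
  have h1 : Real.log (n / 2 ^ 14) ≤ G0 n := Real.log_le_log (by positivity) (by linarith)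
  have h2 := log_pow_two 14
  rw [Real.log_div h0.ne' (by norm_num)] at h1
  generalize Real.log (2 ^ 14) = b at h1 h2
  push_cast at h2
  linarith

theorem log_Lb : Real.log (2 * (Lb : ℝ) - 1) * (1 + 1 / 10 ^ 9) ≤ 11.09036 := by
  have h1 : Real.log (2 * (Lb : ℝ) - 1) ≤ Real.log (2 ^ 16) :=
    Real.log_le_log (by norm_num [Lb]) (by norm_num [Lb])
  have h2 := log_pow_two 16
  generalize Real.log (2 ^ 16) = b at h1 h2
  push_cast at h2
  linarith

/-- The choice of the parameters. -/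
def pm (n J : ℕ) (h : ℕ → ℝ) : Pc where
  n := n
  J := J
  L := Lb
  Λ := La
  h := h
  B := G0 n - 1.2259 + 1 / 8192
  D := 1 / 16384
  T := G0 n + 9.43035
  τ := 500
  θ1 := 0.999662
  θ2 := 1.0001
  Am := 11.1

theorem Lb_pos : 0 < Lb := by decide

theorem Q_eq0 {n J : ℕ} {ε : ℝ} (h : ℕ → ℝ) (hF : Fine n J ε) (s : ℕ) :
    (dat (pm n J h)).Q s = Q0 s := by
  have h0 : (dat (pm n J h)).a0 = 8192 / 8193 := rfl
  have h1 : (dat (pm n J h)).a1 = 1 / 134234112 := rfl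
  have h2 : (dat (pm n J h)).N = 2 ^ 27 := rfl
  have h3 : (dat (pm n J h)).W = W0 := W_eq (P := pm n J h) hF Lb_pos
  rw [Dt.Q, h0, h1, h2, h3, Ck.Q0_eq, Ck.pp_eq]

theorem tl_le {n J : ℕ} (h : ℕ → ℝ) (hn : 670000000 ≤ n) (hF : Fine n J (1 / 10 ^ 9)) :
    0 ≤ (dat (pm n J h)).Tl n ∧ (dat (pm n J h)).Tl n ≤ 1 / 59874 := by
  have hF' : Fine (pm n J h).n (pm n J h).J (1 / 10 ^ 9) := hF
  have n1 : (670000000 : ℝ) ≤ n := by exact_mod_cast hn
  have w1 := wsv_ge n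
  have w0 : 0 < wsv n := by linarith
  have g0 := G0_nonneg n
  have g1 := G0_le n
  have hw : ∀ c, 0 ≤ (dat (pm n J h)).w c := fun c => by
    rw [w_eq hF']
    exact ww_nonneg hF'.β0 _ _
  have s0 : 0 ≤ (dat (pm n J h)).ms :=
    sum_nonneg fun c _ => mul_nonneg (hw c) (Real.exp_pos _).le
  have b0 : 0 ≤ (dat (pm n J h)).mb :=
    sum_nonneg fun c _ => mul_nonneg (hw c) (Real.exp_pos _).le
  have s1 : (dat (pm n J h)).ms ≤ wsv n + 500 * (G0 n + 1 / 10 ^ 9 - wsv n / n) +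
      507 / 1000 * 500 ^ 2 * ((1 + 2 * (1 / 10 ^ 9)) / 16384) :=
    ms_le hF' Lb_pos (by norm_num [pm]) (by norm_num [pm])
  have b1 : (dat (pm n J h)).mb ≤ 16384 + 500 * (Real.log (2 * (Lb : ℝ) - 1) * (1 + 1 / 10 ^ 9) -
      ∑ l ∈ Ico 1 Lb, 4 * (l : ℝ) / (4 * (l : ℝ) ^ 2 - 1)) +
        507 / 1000 * 500 ^ 2 * ((2 * (1 / 10 ^ 9) * (Lb : ℝ) + 17 / 80) / 8192) :=
    mb_le hF' Lb_pos (by norm_num [pm]) (by norm_num [pm])
  have b2 : (dat (pm n J h)).mb ≤ 16384 - 131.881 := by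
    have h1 := log_Lb
    have h2 := harm (L := Lb) (by decide)
    have h3 : (Lb : ℝ) = 32768 := by norm_num [Lb]
    linarith
  have s2 : n * ((dat (pm n J h)).ms / wsv n - 1) ≤ 500 * G0 n - 492.13 := by
    have h1 : n * (wsv n / n) = wsv n := mul_div_cancel₀ _ (by linarith)
    have h2 := mul_le_mul_of_nonneg_left s1 (show (0 : ℝ) ≤ n by linarith)
    have h3 := mul_le_mul_of_nonneg_left w1 (show 0 ≤ 500 * G0 n + 7.87 by linarith)
    rw [div_sub_one w0.ne', ← mul_div_assoc, div_le_iff₀ w0]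
    linarith
  have s3 : ((dat (pm n J h)).ms / wsv n) ^ n ≤ Real.exp (500 * G0 n - 492.13) := by
    refine (pow_le_pow_left₀ (div_nonneg s0 w0.le)
      (le_trans (by linarith only [])
        (Real.add_one_le_exp ((dat (pm n J h)).ms / wsv n - 1))) n).trans ?_
    rw [← Real.exp_nat_mul]
    exact Real.exp_le_exp.2 s2
  have b3 : (8192 / 8193 + 1 / 134234112 * (dat (pm n J h)).mb) ^ 2 ^ 27 ≤ Real.exp (-131.864) := by
    refine (pow_le_pow_left₀ (by positivity) (le_trans (by linarith only [b2])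
      (Real.add_one_le_exp (-131.881 / 134234112))) _).trans ?_
    rw [← Real.exp_nat_mul]
    exact Real.exp_le_exp.2 (by norm_num)
  have e1 : (59874 : ℝ) ≤ Real.exp 11 := by
    have := pow_le_pow_left₀ (by norm_num) Real.exp_one_gt_d9.le 11
    rw [Real.exp_one_pow] at this
    exact le_trans (by norm_num) this
  have e2 := mul_le_mul s3 b3 (pow_nonneg (by positivity) _) (Real.exp_pos _).le
  unfold Dt.Tl
  rw [ws_eq hF' Lb_pos]
  refine ⟨mul_nonneg (Real.exp_pos _).le (mul_nonneg (pow_nonneg (div_nonneg s0 w0.le) _)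
    (pow_nonneg (add_nonneg (by norm_num [dat]) (mul_nonneg (by norm_num [dat]) b0)) _)),
    (mul_le_mul_of_nonneg_left e2 (Real.exp_pos _).le).trans ?_⟩
  rw [← Real.exp_add, ← Real.exp_add, one_div, le_inv_comm₀ (Real.exp_pos _) (by norm_num),
    ← Real.exp_neg]
  refine e1.trans (Real.exp_le_exp.2 ?_)
  change 11 ≤ -(-(500 * (G0 n - 1.2259 + 1 / 8192 - 1 / 16384 - 1 / 16384)) + _)
  linarith only []

end Pool.Agent.Lib.MP_c03ca8_nt.U
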