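import Pool.Agent.Lib.MP_c03ca8_nt.U.Pt
import Pool.Agent.Lib.MP_c03ca8_nt.H.CellB
import Pool.Agent.Lib.MP_c03ca8_nt.H.CkPow

set_option autoImplicit false

noncomputable section

namespace Pool.Agent.Lib.MP_c03ca8_nt.U

open Finset Polynomial H

/-! The data give a step function on the simplex with a large ratio. -/

variable {ι : Type} [Fintype ι] [DecidableEq ι]

/-- The step function of the data. -/
def Dt.F (D : Dt) (j : ι → ℕ) : ℝ :=
  if ∀ l, j l < D.M then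
    D.f (∑ l, D.bt (j l)) (∑ l, D.lam (j l)) (∑ l, D.ρ (j l)) * ∏ l, D.g (j l) else 0

variable {D : Dt} {n : ℕ} {r z0 z1 y : ℝ}

omit [DecidableEq ι] in
theorem F_supp (hD : D.OK n r z0 z1 y) (j : ι → ℕ) (hj : D.F j ≠ 0) :
    ∑ l, D.α (j l + 1) ≤ D.T := by
  unfold Dt.F at hj
  split_ifs at hj with h
  swap
  · exact absurd rfl hj
  have h0 := left_ne_zero_of_mul hj
  have h1 : ∑ l, D.lam (j l) < D.Λ := not_le.1 fun hc => right_ne_zero_of_mul h0 (hD.hΛ _ hc)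
  have h6 := φ_ne hD.D0 (right_ne_zero_of_mul (left_ne_zero_of_mul h0))
  have h2 : ((∑ l, D.lam (j l) : ℕ) : ℝ) + 1 ≤ D.Λ := by exact_mod_cast h1
  have h3 : ∑ l, D.α (j l + 1) ≤ ∑ l, (D.δ * D.lam (j l) + D.ρ (j l)) :=
    sum_le_sum fun l _ => hD.cell _ (h l)
  rw [sum_add_distrib, ← mul_sum, ← Nat.cast_sum] at h3
  have h4 := mul_le_mul_of_nonneg_left h2 hD.δ0
  have h5 := hD.lev
  linarith

theorem F_upd (D : Dt) (i : ι) {j : ι → ℕ} (hj : j ∈ (Ce ι D.M).filter fun j => j i = 0) {c : ℕ}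
    (hc : c ∈ range D.M) : D.F (Function.update j i c) =
      D.f (D.bt c + ∑ l ∈ univ.erase i, D.bt (j l)) (D.lam c + ∑ l ∈ univ.erase i, D.lam (j l))
        (D.ρ c + ∑ l ∈ univ.erase i, D.ρ (j l)) * (D.g c * ∏ l ∈ univ.erase i, D.g (j l)) := by
  rw [Dt.F, if_pos, probb_prod D.g, probb_sum D.lam, probb_sum D.bt, probb_sum D.ρ]
  intro l
  by_cases hl : l = i
  · rw [hl, Function.update_self]
    exact mem_range.1 hc
  · rw [Function.update_of_ne hl]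
    exact mem_range.1 (Fintype.mem_piFinset.1 (mem_filter.1 hj).1 l)

omit [Fintype ι] [DecidableEq ι] in
theorem prod_w (D : Dt) (A : Finset ι) (j : ι → ℕ) :
    ∏ l ∈ A, D.w (j l) = (∏ l ∈ A, D.g (j l)) ^ 2 * ∏ l ∈ A, len D.α (j l) := by
  rw [← prod_pow, ← prod_mul_distrib]
  rfl

theorem iv_eq (D : Dt) (i : ι) : Iv D.M (D.F (ι := ι)) (len D.α) =
    ∑ j ∈ (Ce ι D.M).filter (fun j => j i = 0), (∏ l ∈ univ.erase i, D.w (j l)) *
      ∑ c ∈ range D.M, D.f (D.bt c + ∑ l ∈ univ.erase i, D.bt (j l))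
        (D.lam c + ∑ l ∈ univ.erase i, D.lam (j l)) (D.ρ c + ∑ l ∈ univ.erase i, D.ρ (j l)) ^ 2 *
        D.w c := by
  rw [Iv, sum_ce D.M i]
  refine sum_congr rfl fun j hj => ?_
  rw [mul_sum]
  refine sum_congr rfl fun c hc => ?_
  rw [F_upd D i hj hc, probb_prod (len D.α), prod_w, Dt.w]
  ring

theorem jv_eq (D : Dt) (i : ι) : Jv D.M (D.F (ι := ι)) (len D.α) i =
    ∑ j ∈ (Ce ι D.M).filter (fun j => j i = 0), (∏ l ∈ univ.erase i, D.w (j l)) *
      D.X (∑ l ∈ univ.erase i, D.bt (j l)) (∑ l ∈ univ.erase i, D.lam (j l))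
        (∑ l ∈ univ.erase i, D.ρ (j l)) ^ 2 := by
  refine sum_congr rfl fun j hj => ?_
  have e : ∑ c ∈ range D.M, D.F (Function.update j i c) * len D.α c =
      D.X (∑ l ∈ univ.erase i, D.bt (j l)) (∑ l ∈ univ.erase i, D.lam (j l))
        (∑ l ∈ univ.erase i, D.ρ (j l)) * ∏ l ∈ univ.erase i, D.g (j l) := by
    rw [Dt.X, sum_mul]
    refine sum_congr rfl fun c hc => ?_
    rw [F_upd D i hj hc]
    ring
  rw [e, prod_w]
  ring

theorem sum_Q_le (hD : D.OK n r z0 z1 y) : ∑ s ∈ range D.Λ, D.Q s ≤ 1 := by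
  refine (Ck.Pr.pow ⟨fun s => ?_, ?_⟩ D.N).sum_le D.Λ
  · rw [coeff_add, coeff_C_mul, coeff_C, Dt.W, finsetSum_coeff]
    refine add_nonneg ?_ (mul_nonneg hD.a10 (sum_nonneg fun c _ => ?_))
    · split_ifs
      exacts [hD.a00, le_rfl]
    · rw [coeff_monomial]
      split_ifs
      exacts [w0 hD c, le_rfl]
  · rw [eval_add, eval_mul, eval_C, eval_C, Dt.W, eval_finsetSum]
    simp only [eval_monomial, one_pow, mul_one]
    exact hD.mass

theorem fin_ineq {I J S Z z0 z1 y G a c q k : ℝ} (hq : 0 ≤ q) (hk : 0 ≤ k) (hG : 0 ≤ G)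
    (hy : 0 ≤ y) (hc : 0 ≤ c) (h1 : 0 < z1) (h2 : z1 ≤ Z) (h3 : Z ≤ z0) (hI : I ≤ a * Z + c)
    (hS : G * Z + y ≤ S) (hJ : S ^ 2 ≤ Z * J) (h : q * (a + c / z1) < k * (G + y / z0) ^ 2) :
    q * I < k * J := by
  have hZ : 0 < Z := h1.trans_le h2
  have h4 : c ≤ c / z1 * Z := by
    rw [div_mul_eq_mul_div, le_div_iff₀ h1]
    exact mul_le_mul_of_nonneg_left h2 hc
  have h5 : y / z0 * Z ≤ y := by
    rw [div_mul_eq_mul_div, div_le_iff₀ (hZ.trans_le h3)]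
    exact mul_le_mul_of_nonneg_left h3 hy
  have h6 : 0 ≤ G + y / z0 := add_nonneg hG (div_nonneg hy (hZ.trans_le h3).le)
  have h7 : ((G + y / z0) * Z) ^ 2 ≤ S ^ 2 :=
    pow_le_pow_left₀ (mul_nonneg h6 hZ.le) (by linarith) 2
  have h8 : (G + y / z0) ^ 2 * Z ≤ J := le_of_mul_le_mul_left (by linarith) hZ
  have h9 := mul_le_mul_of_nonneg_left (show I ≤ (a + c / z1) * Z by linarith) hq
  have h10 := mul_lt_mul_of_pos_right h hZ
  have h11 := mul_le_mul_of_nonneg_left h8 hk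
  linarith

theorem iv_lt_jv (hD : D.OK n r z0 z1 y) (hr : 0 ≤ r) (hn : Fintype.card ι = n + 1) (i : ι) :
    r * D.T * Iv D.M (D.F (ι := ι)) (len D.α) < (n + 1) * Jv D.M (D.F (ι := ι)) (len D.α) i := by
  have hw : ∀ j : ι → ℕ, 0 ≤ ∏ l ∈ univ.erase i, D.w (j l) := fun j =>
    prod_nonneg fun l _ => w0 hD _
  have hts : ∀ j : ι → ℕ, ∑ l ∈ univ.erase i, D.bt (j l) ≤ ∑ l ∈ univ.erase i, D.lam (j l) :=
    fun j => sum_le_sum fun l _ => D.bt_le _
  have hm : 0 ≤ D.hm := (hD.h0 0).trans (hD.hle 0)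
  have q1 := sum_Q hD hn i (fun s => D.h s ^ 2) fun s hs => by rw [hD.hΛ s hs]; simp
  have q2 := sum_Q hD hn i (fun s => D.h s * D.A s) fun s hs => by rw [hD.hΛ s hs]; simp
  have q3 := sum_Q hD hn i (fun s => if s < D.Λ then 1 else 0) fun s hs => if_neg (not_lt.2 hs)
  have q4 : ∑ s ∈ range D.Λ, D.Q s * (if s < D.Λ then 1 else 0) ≤ 1 :=
    le_trans (le_of_eq (sum_congr rfl fun s hs => by rw [if_pos (mem_range.1 hs), mul_one]))
      (sum_Q_le hD)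
  have q5 := tail_le hD hn i
  have hc : 0 ≤ D.θ2 ^ 2 * D.wb * D.hm ^ 2 :=
    mul_nonneg (mul_nonneg (sq_nonneg _) (sum_nonneg fun c _ => w0 hD c)) (sq_nonneg _)
  have hE : 0 ≤ D.θ1 * D.hm * D.Am + D.hm ^ 2 * D.K / D.D :=
    add_nonneg (mul_nonneg (mul_nonneg hD.θ10 hm)
      ((sum_nonneg fun c _ => mul_nonneg (gl0 hD c) (hD.h0 _)).trans (hD.Ale 0)))
      (div_nonneg (mul_nonneg (sq_nonneg _)
        (sum_nonneg fun c hc => mul_nonneg (gl0 hD c) (hD.ρ0 c hc))) hD.D0.le)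
  rw [iv_eq D i, jv_eq D i]
  refine fin_ineq (G := D.G) (Z := ∑ j ∈ (Ce ι D.M).filter (fun j => j i = 0),
      (∏ l ∈ univ.erase i, D.w (j l)) * D.f (∑ l ∈ univ.erase i, D.bt (j l))
        (∑ l ∈ univ.erase i, D.lam (j l)) (∑ l ∈ univ.erase i, D.ρ (j l)) ^ 2)
    (S := ∑ j ∈ (Ce ι D.M).filter (fun j => j i = 0),
      (∏ l ∈ univ.erase i, D.w (j l)) * (D.f (∑ l ∈ univ.erase i, D.bt (j l))
        (∑ l ∈ univ.erase i, D.lam (j l)) (∑ l ∈ univ.erase i, D.ρ (j l)) *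
        D.X (∑ l ∈ univ.erase i, D.bt (j l)) (∑ l ∈ univ.erase i, D.lam (j l))
          (∑ l ∈ univ.erase i, D.ρ (j l))))
    (mul_nonneg hr hD.T0.le) (by positivity) (sum_nonneg fun c _ => gl0 hD c) hD.y0 hc hD.z1pos
    ?_ ?_ ?_ ?_ ?_ hD.ineq
  · have h1 := mul_le_mul_of_nonneg_left q5 (sq_nonneg D.hm)
    have h2 := hD.z1le
    rw [← q1] at h2
    refine le_trans (le_sub_iff_add_le.2 (le_trans (add_le_add le_rfl h1) h2)) ?_
    rw [mul_sum, ← sum_sub_distrib]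
    refine sum_le_sum fun j _ => le_trans (le_of_eq ?_)
      (mul_le_mul_of_nonneg_left (le_f_sq hD _ _ _) (hw j))
    rw [Dt.bad]
    ring
  · refine le_trans ?_ (q1.le.trans hD.z0le)
    refine sum_le_sum fun j _ => ?_
    rw [mul_assoc]
    exact mul_le_mul_of_nonneg_left (f_sq_le D _ _ _) (hw j)
  · have h1 := mul_le_mul_of_nonneg_left (q3.le.trans q4) hc
    rw [mul_one] at h1
    refine le_trans ?_ (add_le_add le_rfl h1)
    rw [mul_sum, mul_sum, ← sum_add_distrib]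
    refine sum_le_sum fun j _ =>
      (mul_le_mul_of_nonneg_left (sq_sum_le hD (hts j) _) (hw j)).trans (le_of_eq ?_)
    ring
  · have h1 := mul_le_mul_of_nonneg_left q5 hE
    have h2 := hD.yle
    rw [← q2] at h2
    refine le_trans (add_le_add le_rfl
      (le_sub_iff_add_le.2 (le_trans (add_le_add le_rfl h1) h2))) ?_
    rw [mul_sum, mul_sum, mul_sum, ← sum_sub_distrib, ← sum_add_distrib]
    refine sum_le_sum fun j _ => le_trans (le_of_eq ?_)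
      (mul_le_mul_of_nonneg_left (le_X hD (hts j) _) (hw j))
    rw [Dt.bad]
    ring
  · exact sum_sq_le_sum_mul_sum_of_sq_le_mul _ (fun j _ => mul_nonneg (hw j) (sq_nonneg _))
      (fun j _ => mul_nonneg (hw j) (sq_nonneg _)) fun j _ => le_of_eq (by ring)

theorem var_of_ok (hD : D.OK n r z0 z1 y) (hr : 0 ≤ r) (hn : Fintype.card ι = n + 1) :
    Var ι r := by
  obtain ⟨i⟩ : Nonempty ι := Fintype.card_pos_iff.1 (by omega)
  have hT := hD.T0
  have hT' : 0 < D.T⁻¹ := inv_pos.2 hT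
  refine ⟨D.M, fun c => D.T⁻¹ * D.α c, D.F, by simp only [hD.α0, mul_zero],
    fun a b h => mul_le_mul_of_nonneg_left (hD.mono h) hT'.le, ?_, fun j hj => ?_, ?_⟩
  · exact (inv_mul_le_one₀ hT).2 hD.αM
  · rw [← mul_sum]
    exact (inv_mul_le_one₀ hT).2 (F_supp hD j hj)
  · have e : len (fun c => D.T⁻¹ * D.α c) = fun c => D.T⁻¹ * len D.α c :=
      funext fun c => (mul_sub _ _ _).symm
    have h1 := sum_lt_sum_of_nonempty ⟨i, mem_univ i⟩ fun l _ => iv_lt_jv hD hr hn l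
    rw [sum_const, card_univ, hn, nsmul_eq_mul, Nat.cast_succ, ← mul_sum] at h1
    have h2 := mul_lt_mul_of_pos_left (lt_of_mul_lt_mul_left h1 (by positivity))
      (pow_pos hT' (Fintype.card ι + 1))
    simp only [e, iv_smul, jv_smul]
    rw [← mul_sum]
    refine lt_of_eq_of_lt ?_ h2
    rw [pow_succ]
    field_simp

end Pool.Agent.Lib.MP_c03ca8_nt.U
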